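import Pool.Agent.R42.UB.Defs

/-!
# MP_ff3568_co: an acyclic orientation with two kinds of arcs
-/

set_option autoImplicit false

open Finset Classical MP_482ee1

namespace Pool.Agent.V7H32.UB

noncomputable section

variable {V : Type}

/-- degree inside `U` -/
def dU (G : SimpleGraph V) (U : Finset V) (v : V) : ℕ := (U.filter (fun w => G.Adj v w)).card

theorem sum_dU [Fintype V] (G : SimpleGraph V) (U : Finset V) :
    ∑ v ∈ U, dU G U v = 2 * eIn G U := by
  let H' : SimpleGraph V :=
    { Adj := fun v w => G.Adj v w ∧ v ∈ U ∧ w ∈ U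
      symm := ⟨fun v w h => ⟨h.1.symm, h.2.2, h.2.1⟩⟩
      loopless := ⟨fun v h => G.loopless.irrefl v h.1⟩ }
  have h1 : {e : Sym2 V | e ∈ G.edgeSet ∧ ∀ x ∈ e, x ∈ U} = ↑(H'.edgeFinset) := by
    ext e
    rw [SimpleGraph.coe_edgeFinset]
    induction e with
    | _ a b =>
      simp only [Set.mem_ofPred_eq, SimpleGraph.mem_edgeSet, Sym2.mem_iff, forall_eq_or_imp,
        forall_eq]
      exact Iff.rfl
  have h2 : eIn G U = H'.edgeFinset.card := by
    unfold eIn
    rw [h1, Set.ncard_coe_finset]
  have h3 := H'.sum_degrees_eq_twice_card_edges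
  rw [h2, ← h3]
  rw [← Finset.sum_subset (Finset.subset_univ U)]
  · refine Finset.sum_congr rfl fun v hv => ?_
    rw [← SimpleGraph.card_neighborFinset_eq_degree]
    unfold dU
    congr 1
    ext w
    rw [SimpleGraph.mem_neighborFinset, mem_filter]
    exact ⟨fun h => ⟨h.2, hv, h.1⟩, fun h => ⟨h.2.2, h.1⟩⟩
  · intro v _ hv
    rw [← SimpleGraph.card_neighborFinset_eq_degree, Finset.card_eq_zero]
    rw [Finset.eq_empty_iff_forall_notMem]
    intro w hw
    rw [SimpleGraph.mem_neighborFinset] at hw
    exact hv hw.2.1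

/-- In a graph with `5 e(U) < 7 |U|` one of three configurations occurs. -/
theorem exists_config [Fintype V] (G : SimpleGraph V) (t : ℕ) (ht : 2 ≤ t) (U : Finset V)
    (hs : 5 * eIn G U < 7 * U.card) :
    (∃ v ∈ U, dU G U v ≤ 1) ∨
    (∃ u ∈ U, ∃ x ∈ U, dU G U u = 2 ∧ G.Adj u x ∧ dU G U x + 1 ≤ 2 * t) ∨
    (∃ x ∈ U, dU G U x ≤ 2 * t ∧ ∀ u ∈ U, G.Adj x u → dU G U u = 2 ∧
      ∀ y ∈ U, G.Adj u y → 2 * t ≤ dU G U y) := by
  by_contra hcon
  push Not at hcon
  obtain ⟨h0, h1, h2⟩ := hcon
  have h1' : ∀ u ∈ U, dU G U u = 2 → ∀ x ∈ U, G.Adj u x → 2 * t ≤ dU G U x := by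
    intro u hu hd x hx hux
    have := h1 u hu x hx hd hux
    omega
  have h2' : ∀ x ∈ U, dU G U x ≤ 2 * t → ∃ u ∈ U, G.Adj x u ∧ dU G U u ≠ 2 := by
    intro x hx hd
    obtain ⟨u, hu, hxu, h⟩ := h2 x hx hd
    refine ⟨u, hu, hxu, fun h3 => ?_⟩
    obtain ⟨y, hy, huy, h4⟩ := h h3
    have := h1' u hu h3 y hy huy
    omega
  let A : Finset V := U.filter (fun v => dU G U v = 2)
  let B : Finset V := U.filter (fun v => ¬ dU G U v = 2)
  let k : V → ℕ := fun v => (A.filter (fun u => G.Adj v u)).card
  have hk : ∑ v ∈ B, k v = 2 * A.card := by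
    have e1 : ∑ v ∈ B, k v = ∑ u ∈ A, (B.filter (fun v => G.Adj v u)).card := by
      simp only [k, card_filter]
      exact sum_comm
    rw [e1]
    have e2 : ∀ u ∈ A, (B.filter (fun v => G.Adj v u)).card = 2 := by
      intro u hu
      rw [mem_filter] at hu
      rw [← hu.2]
      unfold dU
      congr 1
      ext v
      simp only [B, mem_filter]
      constructor
      · rintro ⟨⟨a, b⟩, c⟩
        exact ⟨a, c.symm⟩
      · rintro ⟨a, c⟩
        have := h1' u hu.1 hu.2 v a c
        exact ⟨⟨a, by omega⟩, c.symm⟩
    rw [sum_congr rfl e2, sum_const, smul_eq_mul, Nat.mul_comm]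
  have hB : ∀ v ∈ B, 14 + 2 * k v ≤ 5 * dU G U v := by
    intro v hv
    simp only [B, mem_filter] at hv
    have hd := h0 v hv.1
    rcases Nat.eq_zero_or_pos (k v) with h | h
    · rw [h]
      have := hv.2
      omega
    · obtain ⟨u, hu⟩ := card_pos.1 h
      simp only [A, mem_filter] at hu
      have h3 := h1' u hu.1.1 hu.1.2 v hv.1 hu.2.symm
      have h4 : k v ≤ dU G U v := by
        apply card_le_card
        intro w hw
        simp only [A, mem_filter] at hw ⊢
        exact ⟨hw.1.1, hw.2⟩
      rcases Nat.lt_or_ge (2 * t) (dU G U v) with h5 | h5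
      · omega
      · obtain ⟨w, hw, hvw, hdw⟩ := h2' v hv.1 h5
        have h6 : k v < dU G U v := by
          apply card_lt_card
          refine ⟨?_, fun hss => ?_⟩
          · intro w hw
            simp only [A, mem_filter] at hw ⊢
            exact ⟨hw.1.1, hw.2⟩
          · have := hss (mem_filter.2 ⟨hw, hvw⟩)
            simp only [A, mem_filter] at this
            exact hdw this.1.2
        omega
  have hsplit : ∑ v ∈ U, dU G U v = ∑ v ∈ A, dU G U v + ∑ v ∈ B, dU G U v :=
    (sum_filter_add_sum_filter_not U _ _).symm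
  have hcard : U.card = A.card + B.card := (card_filter_add_card_filter_not (s := U) _).symm
  have hA : ∑ v ∈ A, dU G U v = 2 * A.card := by
    rw [sum_congr rfl (g := fun _ => 2) (fun v hv => (mem_filter.1 hv).2), sum_const, smul_eq_mul,
      Nat.mul_comm]
  have hB2 : 14 * B.card + 2 * (2 * A.card) ≤ 5 * ∑ v ∈ B, dU G U v := by
    rw [← hk, mul_sum, mul_sum, Nat.mul_comm 14, ← smul_eq_mul, ← sum_const, ← sum_add_distrib]
    exact sum_le_sum hB
  have hsum := sum_dU G U
  omega

/-- number of arcs of the second kind into `v` -/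
def inP (U : Finset V) (P : V → Option V) (v : V) : ℕ := (U.filter (fun u => P u = some v)).card

/-- The scheme: every vertex has at most one arc of each of the two kinds, to vertices of smaller
rank. -/
structure Sch (G : SimpleGraph V) (t : ℕ) (U : Finset V) (L P : V → Option V) (rk : V → ℕ) :
    Prop where
  l : ∀ v ∈ U, ∀ w, L v = some w → w ∈ U ∧ G.Adj v w ∧ rk w < rk v
  p : ∀ v ∈ U, ∀ w, P v = some w → w ∈ U ∧ G.Adj v w ∧ rk w < rk v
  lp : ∀ v ∈ U, ∀ w, P v = some w → ∃ z, L v = some z ∧ z ≠ w
  cover : ∀ v ∈ U, ∀ w ∈ U, G.Adj v w →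
    L v = some w ∨ P v = some w ∨ L w = some v ∨ P w = some v
  cap1 : ∀ v ∈ U, P v ≠ none → inP U P v + 3 ≤ 2 * t
  cap2 : ∀ v ∈ U, L v ≠ none → inP U P v + 2 ≤ 2 * t
  cap3 : ∀ v ∈ U, inP U P v ≤ 2 * t

variable {G : SimpleGraph V} {t : ℕ} {U : Finset V} {L P : V → Option V} {rk : V → ℕ}

theorem Sch.deg_bound (h : Sch G t U L P rk) {x : V} (hx : x ∈ U) :
    inP U P x + (if P x = none then 0 else 1) + (if L x = none then 0 else 1) ≤ dU G U x := by
  have e1 : (if P x = none then 0 else 1) = (U.filter (fun u => P x = some u)).card := by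
    split_ifs with h1
    · rw [eq_comm, card_eq_zero, filter_eq_empty_iff]
      intro u _ hu
      rw [h1] at hu
      exact absurd hu (by simp)
    · obtain ⟨w, hw⟩ := Option.ne_none_iff_exists'.1 h1
      rw [eq_comm, card_eq_one]
      refine ⟨w, ?_⟩
      ext u
      rw [mem_filter, mem_singleton, hw]
      constructor
      · rintro ⟨-, h2⟩
        exact (Option.some.inj h2).symm
      · rintro rfl
        exact ⟨(h.p x hx u hw).1, rfl⟩
  have e2 : (if L x = none then 0 else 1) = (U.filter (fun u => L x = some u)).card := by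
    split_ifs with h1
    · rw [eq_comm, card_eq_zero, filter_eq_empty_iff]
      intro u _ hu
      rw [h1] at hu
      exact absurd hu (by simp)
    · obtain ⟨w, hw⟩ := Option.ne_none_iff_exists'.1 h1
      rw [eq_comm, card_eq_one]
      refine ⟨w, ?_⟩
      ext u
      rw [mem_filter, mem_singleton, hw]
      constructor
      · rintro ⟨-, h2⟩
        exact (Option.some.inj h2).symm
      · rintro rfl
        exact ⟨(h.l x hx u hw).1, rfl⟩
  unfold inP dU
  rw [e1, e2, ← card_union_of_disjoint, ← card_union_of_disjoint]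
  · apply card_le_card
    intro u hu
    simp only [mem_union, mem_filter] at hu ⊢
    rcases hu with (⟨h1, h2⟩ | ⟨h1, h2⟩) | ⟨h1, h2⟩
    · exact ⟨h1, (h.p u h1 x h2).2.1.symm⟩
    · exact ⟨h1, (h.p x hx u h2).2.1⟩
    · exact ⟨h1, (h.l x hx u h2).2.1⟩
  · rw [disjoint_left]
    intro u hu hu'
    simp only [mem_union, mem_filter] at hu hu'
    rcases hu with ⟨h1, h2⟩ | ⟨h1, h2⟩
    · have := (h.p u h1 x h2).2.2
      have := (h.l x hx u hu'.2).2.2
      omega
    · obtain ⟨z, h3, h4⟩ := h.lp x hx u h2
      rw [hu'.2] at h3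
      exact h4 (Option.some.inj h3).symm
  · rw [disjoint_left]
    intro u hu hu'
    simp only [mem_filter] at hu hu'
    have := (h.p u hu.1 x hu.2).2.2
    have := (h.p x hx u hu'.2).2.2
    omega

/-- adding one vertex -/
theorem Sch.add (h : Sch G t U L P rk) (ht : 2 ≤ t) {u : V} (hu : u ∉ U) (lu pu : Option V)
    (hl : ∀ w, lu = some w → w ∈ U ∧ G.Adj u w) (hp : ∀ w, pu = some w → w ∈ U ∧ G.Adj u w)
    (hlp : ∀ w, pu = some w → ∃ z, lu = some z ∧ z ≠ w)
    (hc : ∀ w ∈ U, G.Adj u w → lu = some w ∨ pu = some w)
    (hcap : ∀ x, pu = some x → (P x ≠ none → inP U P x + 4 ≤ 2 * t) ∧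
      (L x ≠ none → inP U P x + 3 ≤ 2 * t) ∧ inP U P x + 1 ≤ 2 * t) :
    Sch G t (insert u U) (Function.update L u lu) (Function.update P u pu)
      (Function.update rk u (1 + U.sup rk)) ∧
    ∀ v ∈ U, inP (insert u U) (Function.update P u pu) v =
      inP U P v + if pu = some v then 1 else 0 := by
  have hne : ∀ v ∈ U, v ≠ u := fun v hv h1 => hu (h1 ▸ hv)
  have hin : ∀ v, inP (insert u U) (Function.update P u pu) v =
      inP U P v + if pu = some v then 1 else 0 := by
    intro v
    unfold inP
    rw [filter_insert, Function.update_self]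
    have e : U.filter (fun w => Function.update P u pu w = some v) =
        U.filter (fun w => P w = some v) := by
      apply filter_congr
      intro w hw
      rw [Function.update_of_ne (hne w hw)]
    rw [e]
    split_ifs with h1
    · rw [card_insert_of_notMem (fun h2 => hu (mem_filter.1 h2).1)]
    · rfl
  have hrk : ∀ w ∈ U, rk w < 1 + U.sup rk := fun w hw => by
    have := le_sup (f := rk) hw
    omega
  have hin0 : inP U P u = 0 := by
    unfold inP
    rw [card_eq_zero, filter_eq_empty_iff]
    intro w hw h1
    exact hu (h.p w hw u h1).1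
  refine ⟨⟨?_, ?_, ?_, ?_, ?_, ?_, ?_⟩, fun v _ => hin v⟩
  · intro v hv w hw
    rcases mem_insert.1 hv with rfl | hv'
    · rw [Function.update_self] at hw
      obtain ⟨h1, h2⟩ := hl w hw
      refine ⟨mem_insert_of_mem h1, h2, ?_⟩
      rw [Function.update_self, Function.update_of_ne (hne w h1)]
      exact hrk w h1
    · rw [Function.update_of_ne (hne v hv')] at hw
      obtain ⟨h1, h2, h3⟩ := h.l v hv' w hw
      refine ⟨mem_insert_of_mem h1, h2, ?_⟩
      rw [Function.update_of_ne (hne v hv'), Function.update_of_ne (hne w h1)]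
      exact h3
  · intro v hv w hw
    rcases mem_insert.1 hv with rfl | hv'
    · rw [Function.update_self] at hw
      obtain ⟨h1, h2⟩ := hp w hw
      refine ⟨mem_insert_of_mem h1, h2, ?_⟩
      rw [Function.update_self, Function.update_of_ne (hne w h1)]
      exact hrk w h1
    · rw [Function.update_of_ne (hne v hv')] at hw
      obtain ⟨h1, h2, h3⟩ := h.p v hv' w hw
      refine ⟨mem_insert_of_mem h1, h2, ?_⟩
      rw [Function.update_of_ne (hne v hv'), Function.update_of_ne (hne w h1)]
      exact h3
  · intro v hv w hw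
    rcases mem_insert.1 hv with rfl | hv'
    · rw [Function.update_self] at hw ⊢
      exact hlp w hw
    · rw [Function.update_of_ne (hne v hv')] at hw ⊢
      exact h.lp v hv' w hw
  · intro v hv w hw hvw
    rcases mem_insert.1 hv with rfl | hv'
    · rcases mem_insert.1 hw with rfl | hw'
      · exact absurd hvw (G.loopless.irrefl _)
      · rw [Function.update_self, Function.update_self]
        rcases hc w hw' hvw with h1 | h1
        · exact Or.inl h1
        · exact Or.inr (Or.inl h1)
    · rcases mem_insert.1 hw with rfl | hw'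
      · rw [Function.update_self, Function.update_self]
        rcases hc v hv' hvw.symm with h1 | h1
        · exact Or.inr (Or.inr (Or.inl h1))
        · exact Or.inr (Or.inr (Or.inr h1))
      · rw [Function.update_of_ne (hne v hv'), Function.update_of_ne (hne v hv'),
          Function.update_of_ne (hne w hw'), Function.update_of_ne (hne w hw')]
        exact h.cover v hv' w hw' hvw
  · intro v hv hPv
    rw [hin]
    rcases mem_insert.1 hv with rfl | hv'
    · rw [hin0]
      have : ¬ pu = some v := fun h1 => hu (hp v h1).1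
      rw [if_neg this]
      omega
    · rw [Function.update_of_ne (hne v hv')] at hPv
      have := h.cap1 v hv' hPv
      split_ifs with h1
      · have := (hcap v h1).1 hPv
        omega
      · omega
  · intro v hv hLv
    rw [hin]
    rcases mem_insert.1 hv with rfl | hv'
    · rw [hin0]
      have : ¬ pu = some v := fun h1 => hu (hp v h1).1
      rw [if_neg this]
      omega
    · rw [Function.update_of_ne (hne v hv')] at hLv
      have := h.cap2 v hv' hLv
      split_ifs with h1
      · have := (hcap v h1).2.1 hLv
        omega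
      · omega
  · intro v hv
    rw [hin]
    rcases mem_insert.1 hv with rfl | hv'
    · rw [hin0]
      have : ¬ pu = some v := fun h1 => hu (hp v h1).1
      rw [if_neg this]
      omega
    · have := h.cap3 v hv'
      split_ifs with h1
      · have := (hcap v h1).2.2
        omega
      · omega

theorem exists_sch [Fintype V] (G : SimpleGraph V) (t : ℕ) (ht : 2 ≤ t)
    (hs : ∀ W : Finset V, W.Nonempty → 5 * eIn G W < 7 * W.card) (U : Finset V) :
    ∃ (L P : V → Option V) (rk : V → ℕ), Sch G t U L P rk := by
  induction U using Finset.strongInduction with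
  | H U ih =>
  rcases U.eq_empty_or_nonempty with rfl | hU
  · exact ⟨fun _ => none, fun _ => none, fun _ => 0, by simp, by simp, by simp, by simp, by simp,
      by simp, by simp⟩
  rcases exists_config G t ht U (hs U hU) with ⟨v, hv, hd⟩ | ⟨u, hu, x, hx, hd, hux, hdx⟩ |
    ⟨x, hx, hdx, hnb⟩
  · -- a vertex of degree at most one
    obtain ⟨L, P, rk, h⟩ := ih (U.erase v) (erase_ssubset hv)
    have hv' : v ∉ U.erase v := notMem_erase v U
    obtain ⟨lu, hlu⟩ : ∃ lu : Option V, (∀ w, lu = some w → w ∈ U.erase v ∧ G.Adj v w) ∧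
        ∀ w ∈ U.erase v, G.Adj v w → lu = some w := by
      by_cases hex : ∃ w ∈ U, G.Adj v w
      · obtain ⟨w, hw, hvw⟩ := hex
        refine ⟨some w, ?_, ?_⟩
        · intro w' h1
          obtain rfl := Option.some.inj h1
          exact ⟨mem_erase.2 ⟨hvw.ne', hw⟩, hvw⟩
        · intro w' hw' hvw'
          congr 1
          exact card_le_one.1 hd w (mem_filter.2 ⟨hw, hvw⟩) w'
            (mem_filter.2 ⟨(mem_erase.1 hw').2, hvw'⟩)
      · push Not at hex
        refine ⟨none, by simp, ?_⟩
        intro w hw hvw
        exact absurd hvw (hex w (mem_erase.1 hw).2)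
    have := (h.add ht hv' lu none hlu.1 (by simp) (by simp)
      (fun w hw hvw => Or.inl (hlu.2 w hw hvw)) (by simp)).1
    rw [insert_erase hv] at this
    exact ⟨_, _, _, this⟩
  · -- a vertex of degree two with a neighbour of small degree
    obtain ⟨L, P, rk, h⟩ := ih (U.erase u) (erase_ssubset hu)
    have hu' : u ∉ U.erase u := notMem_erase u U
    obtain ⟨a, b, hab, hset⟩ := card_eq_two.1 hd
    have hmem : ∀ w, w ∈ U ∧ G.Adj u w ↔ w = a ∨ w = b := by
      intro w
      have := congrArg (fun S => w ∈ S) hset
      simp only [mem_filter, mem_insert, mem_singleton] at this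
      exact iff_of_eq this
    obtain ⟨y, hyx, hmem'⟩ : ∃ y, y ≠ x ∧ ∀ w, w ∈ U ∧ G.Adj u w ↔ w = x ∨ w = y := by
      rcases (hmem x).1 ⟨hx, hux⟩ with rfl | rfl
      · exact ⟨b, hab.symm, hmem⟩
      · exact ⟨a, hab, fun w => (hmem w).trans or_comm⟩
    obtain ⟨hy, huy⟩ := (hmem' y).2 (Or.inr rfl)
    have hxe : x ∈ U.erase u := mem_erase.2 ⟨hux.ne', hx⟩
    have hdeg : dU G (U.erase u) x + 1 ≤ dU G U x := by
      unfold dU
      have : (U.erase u).filter (fun w => G.Adj x w) ⊂ U.filter (fun w => G.Adj x w) := by
        refine ⟨filter_subset_filter _ (erase_subset _ _), fun hss => ?_⟩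
        have := hss (mem_filter.2 ⟨hu, hux.symm⟩)
        exact (mem_erase.1 (mem_filter.1 this).1).1 rfl
      exact card_lt_card this
    have hb := h.deg_bound hxe
    have := (h.add ht hu' (some y) (some x) ?_ ?_ ?_ ?_ ?_).1
    · rw [insert_erase hu] at this
      exact ⟨_, _, _, this⟩
    · intro w hw
      obtain rfl := Option.some.inj hw
      exact ⟨mem_erase.2 ⟨huy.ne', hy⟩, huy⟩
    · intro w hw
      obtain rfl := Option.some.inj hw
      exact ⟨hxe, hux⟩
    · intro w hw
      obtain rfl := Option.some.inj hw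
      exact ⟨y, rfl, hyx⟩
    · intro w hw huw
      rcases (hmem' w).1 ⟨(mem_erase.1 hw).2, huw⟩ with rfl | rfl
      · exact Or.inr rfl
      · exact Or.inl rfl
    · intro w hw
      obtain rfl := Option.some.inj hw
      refine ⟨fun h1 => ?_, fun h1 => ?_, ?_⟩
      · obtain ⟨z, hz⟩ := Option.ne_none_iff_exists'.1 h1
        obtain ⟨z', hz', -⟩ := h.lp x hxe z hz
        rw [if_neg h1, if_neg (by rw [hz']; simp)] at hb
        omega
      · rw [if_neg h1] at hb
        omega
      · omega
  · -- a vertex of degree at most `2 t`, all of whose neighbours have degree two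
    let N : Finset V := U.filter (fun w => G.Adj x w)
    have hNx : x ∉ N := fun h => G.loopless.irrefl _ (mem_filter.1 h).2
    have key : ∀ A ⊆ N, ∃ (L P : V → Option V) (rk : V → ℕ),
        Sch G t (insert x (U \ insert x N) ∪ A) L P rk ∧ L x = none ∧ P x = none ∧
        inP (insert x (U \ insert x N) ∪ A) P x = A.card := by
      intro A
      induction A using Finset.induction_on with
      | empty =>
        intro _
        obtain ⟨L, P, rk, h⟩ := ih (U \ insert x N)
          (sdiff_ssubset (by
            intro w hw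
            rcases mem_insert.1 hw with rfl | hw
            · exact hx
            · exact (mem_filter.1 hw).1) ⟨x, mem_insert_self _ _⟩)
        have hx' : x ∉ U \ insert x N := fun h1 => (mem_sdiff.1 h1).2 (mem_insert_self _ _)
        have h2 := (h.add ht hx' none none (by simp) (by simp) (by simp) ?_ (by simp)).1
        · rw [union_empty]
          refine ⟨_, _, _, h2, Function.update_self _ _ _, Function.update_self _ _ _, ?_⟩
          rw [card_empty]
          unfold inP
          rw [card_eq_zero, filter_eq_empty_iff]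
          intro w hw h3
          rcases mem_insert.1 hw with rfl | hw'
          · rw [Function.update_self] at h3
            exact absurd h3 (by simp)
          · rw [Function.update_of_ne (show w ≠ x from fun h4 => hx' (h4 ▸ hw'))] at h3
            exact hx' (h.p w hw' x h3).1
        · intro w hw hxw
          exact absurd (mem_insert_of_mem (mem_filter.2 ⟨(mem_sdiff.1 hw).1, hxw⟩))
            (mem_sdiff.1 hw).2
      | insert u A huA ihA =>
        intro hsub
        have huN : u ∈ N := hsub (mem_insert_self _ _)
        have hAN : A ⊆ N := fun w hw => hsub (mem_insert_of_mem hw)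
        obtain ⟨L, P, rk, h, hL, hP, hin⟩ := ihA hAN
        obtain ⟨hu, hxu⟩ := mem_filter.1 huN
        obtain ⟨hdu, hnbu⟩ := hnb u hu hxu
        have hu' : u ∉ insert x (U \ insert x N) ∪ A := by
          intro h1
          rcases mem_union.1 h1 with h1 | h1
          · rcases mem_insert.1 h1 with rfl | h1
            · exact hNx huN
            · exact (mem_sdiff.1 h1).2 (mem_insert_of_mem huN)
          · exact huA h1
        obtain ⟨a, b, hab, hset⟩ := card_eq_two.1 hdu
        have hmem : ∀ w, w ∈ U ∧ G.Adj u w ↔ w = a ∨ w = b := by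
          intro w
          have := congrArg (fun S => w ∈ S) hset
          simp only [mem_filter, mem_insert, mem_singleton] at this
          exact iff_of_eq this
        obtain ⟨y, hyx, hmem'⟩ : ∃ y, y ≠ x ∧ ∀ w, w ∈ U ∧ G.Adj u w ↔ w = x ∨ w = y := by
          rcases (hmem x).1 ⟨hx, hxu.symm⟩ with rfl | rfl
          · exact ⟨b, hab.symm, hmem⟩
          · exact ⟨a, hab, fun w => (hmem w).trans or_comm⟩
        obtain ⟨hy, huy⟩ := (hmem' y).2 (Or.inr rfl)
        have hyN : y ∉ N := by
          intro hyN
          have h1 := (hnb y hy (mem_filter.1 hyN).2).1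
          have h2 := hnbu y hy huy
          omega
        have hyU : y ∈ insert x (U \ insert x N) ∪ A := by
          refine mem_union_left _ (mem_insert_of_mem (mem_sdiff.2 ⟨hy, fun h1 => ?_⟩))
          rcases mem_insert.1 h1 with h1 | h1
          · exact hyx h1
          · exact hyN h1
        have hxU : x ∈ insert x (U \ insert x N) ∪ A := mem_union_left _ (mem_insert_self _ _)
        have hsubU : insert x (U \ insert x N) ∪ A ⊆ U := by
          intro w hw
          rcases mem_union.1 hw with hw | hw
          · rcases mem_insert.1 hw with rfl | hw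
            · exact hx
            · exact (mem_sdiff.1 hw).1
          · exact (mem_filter.1 (hAN hw)).1
        have hAcard : A.card + 1 ≤ 2 * t := by
          have h1 := card_le_card hsub
          rw [card_insert_of_notMem huA] at h1
          exact h1.trans hdx
        have h2 := h.add ht hu' (some y) (some x) ?_ ?_ ?_ ?_ ?_
        · obtain ⟨h2, h3⟩ := h2
          have hxu' : x ≠ u := hxu.ne
          rw [union_insert]
          refine ⟨_, _, _, h2, ?_, ?_, ?_⟩
          · rw [Function.update_of_ne hxu']; exact hL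
          · rw [Function.update_of_ne hxu']; exact hP
          · rw [h3 x hxU, hin, if_pos rfl, card_insert_of_notMem huA]
        · intro w hw
          obtain rfl := Option.some.inj hw
          exact ⟨hyU, huy⟩
        · intro w hw
          obtain rfl := Option.some.inj hw
          exact ⟨hxU, hxu.symm⟩
        · intro w hw
          obtain rfl := Option.some.inj hw
          exact ⟨y, rfl, hyx⟩
        · intro w hw huw
          rcases (hmem' w).1 ⟨hsubU hw, huw⟩ with rfl | rfl
          · exact Or.inr rfl
          · exact Or.inl rfl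
        · intro w hw
          obtain rfl := Option.some.inj hw
          refine ⟨fun h1 => absurd hP h1, fun h1 => absurd hL h1, ?_⟩
          rw [hin]
          exact hAcard
    obtain ⟨L, P, rk, h, -⟩ := key N (Subset.refl _)
    have e : insert x (U \ insert x N) ∪ N = U := by
      ext w
      simp only [mem_union, mem_insert, mem_sdiff, not_or]
      constructor
      · rintro ((rfl | h1) | h1)
        · exact hx
        · exact h1.1
        · exact (mem_filter.1 h1).1
      · intro hw
        by_cases h1 : w = x
        · exact Or.inl (Or.inl h1)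
        · by_cases h2 : w ∈ N
          · exact Or.inr h2
          · exact Or.inl (Or.inr ⟨hw, h1, h2⟩)
    rw [e] at h
    exact ⟨L, P, rk, h⟩

end

end Pool.Agent.V7H32.UB
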