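import Pool.Agent.V7H32.UB.Geom
import Pool.Agent.V7H32.UB.Scheme

/-!
# MP_ff3568_co: from the scheme to a comb
-/

set_option autoImplicit false

open Finset Classical MP_482ee1

namespace Pool.Agent.V7H32.UB

noncomputable section

theorem exists_rec {β X σ : Type} (rk : β → ℕ) (par : β → Option (β × σ))
    (hpar : ∀ b c s, par b = some (c, s) → rk c < rk b) (root : β → X) (next : X → σ → X) :
    ∃ pos : β → X, (∀ b, par b = none → pos b = root b) ∧
      ∀ b c s, par b = some (c, s) → pos b = next (pos c) s := by
  let F : ∀ b : β, (∀ c : β, rk c < rk b → X) → X := fun b ih =>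
    if h : ∃ cs : β × σ, par b = some cs then
      next (ih h.choose.1 (hpar b h.choose.1 h.choose.2 h.choose_spec)) h.choose.2
    else root b
  have wf : WellFounded (fun c b : β => rk c < rk b) := (measure rk).wf
  refine ⟨wf.fix F, fun b hb => ?_, fun b c s hb => ?_⟩
  · rw [wf.fix_eq]
    simp only [F]
    rw [dif_neg]
    rintro ⟨cs, h⟩
    rw [hb] at h
    exact absurd h (by simp)
  · rw [wf.fix_eq]
    have h : ∃ cs : β × σ, par b = some cs := ⟨_, hb⟩
    have h1 : h.choose = (c, s) := by
      exact Option.some.inj (h.choose_spec.symm.trans hb)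
    simp only [F]
    rw [dif_pos h]
    have h2 : h.choose.1 = c := by rw [h1]
    have h3 : h.choose.2 = s := by rw [h1]
    rw [h2, h3]

variable {V : Type} [Fintype V] {G : SimpleGraph V} {t : ℕ} {L P : V → Option V} {rk : V → ℕ}

/-- target of the bar `b` -/
def tgt (L P : V → Option V) (b : V × Fin t) : Option V :=
  if b.2.val = 0 then L b.1 else if b.2.val = 1 then P b.1 else none

/-- plain slots of `v` -/
def plain (L P : V → Option V) (t : ℕ) (v : V) : Finset (Fin t × Fin 3) :=
  univ.filter (fun p => (p.2 = 1 ∧ ¬ (p.1.val = 0 ∧ L v ≠ none)) ∨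
    (p.2 = 2 ∧ tgt L P (v, p.1) = none))

/-- all slots of `v` -/
def slots (L P : V → Option V) (t : ℕ) (v : V) : Finset (Fin t × Fin 3) :=
  univ.filter (fun p => p.2 = 0) ∪ plain L P t v

omit [Fintype V] in
theorem card_plain (L P : V → Option V) (t : ℕ) (v : V) :
    2 * t ≤ (plain L P t v).card + 2 * (if L v = none then 0 else 1) +
      (if P v = none then 0 else 1) := by
  let A : Finset (Fin t) := univ.filter (fun k => ¬ (k.val = 0 ∧ L v ≠ none))
  let B : Finset (Fin t) := univ.filter (fun k => tgt L P (v, k) = none)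
  have hA : t ≤ A.card + (if L v = none then 0 else 1) := by
    have h1 : (univ.filter (fun k : Fin t => (k.val = 0 ∧ L v ≠ none))).card ≤
        if L v = none then 0 else 1 := by
      split_ifs with h
      · rw [Nat.le_zero, card_eq_zero, filter_eq_empty_iff]
        rintro k - ⟨-, h2⟩
        exact h2 h
      · rw [card_le_one]
        intro a ha b hb
        simp only [mem_filter, mem_univ, true_and] at ha hb
        exact Fin.ext (ha.1.trans hb.1.symm)
    have h2 := card_filter_add_card_filter_not (s := (univ : Finset (Fin t)))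
      (fun k : Fin t => (k.val = 0 ∧ L v ≠ none))
    rw [card_univ, Fintype.card_fin] at h2
    simp only [A]
    omega
  have hB : t ≤ B.card + (if L v = none then 0 else 1) + (if P v = none then 0 else 1) := by
    have h1 : (univ.filter (fun k : Fin t => ¬ tgt L P (v, k) = none)).card ≤
        (if L v = none then 0 else 1) + (if P v = none then 0 else 1) := by
      have h3 : univ.filter (fun k : Fin t => ¬ tgt L P (v, k) = none) ⊆
          univ.filter (fun k : Fin t => (k.val = 0 ∧ L v ≠ none)) ∪
          univ.filter (fun k : Fin t => (k.val = 1 ∧ P v ≠ none)) := by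
        intro k hk
        simp only [mem_union, mem_filter, mem_univ, true_and, tgt] at hk ⊢
        split_ifs at hk with h4 h5
        · exact Or.inl ⟨h4, hk⟩
        · exact Or.inr ⟨h5, hk⟩
        · exact absurd rfl hk
      refine (card_le_card h3).trans ((card_union_le _ _).trans (Nat.add_le_add ?_ ?_))
      · split_ifs with h
        · rw [Nat.le_zero, card_eq_zero, filter_eq_empty_iff]
          rintro k - ⟨-, h2⟩
          exact h2 h
        · rw [card_le_one]
          intro a ha b hb
          simp only [mem_filter, mem_univ, true_and] at ha hb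
          exact Fin.ext (ha.1.trans hb.1.symm)
      · split_ifs with h
        · rw [Nat.le_zero, card_eq_zero, filter_eq_empty_iff]
          rintro k - ⟨-, h2⟩
          exact h2 h
        · rw [card_le_one]
          intro a ha b hb
          simp only [mem_filter, mem_univ, true_and] at ha hb
          exact Fin.ext (ha.1.trans hb.1.symm)
    have h2 := card_filter_add_card_filter_not (s := (univ : Finset (Fin t)))
      (fun k : Fin t => tgt L P (v, k) = none)
    rw [card_univ, Fintype.card_fin] at h2
    simp only [B]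
    omega
  have hplain : plain L P t v = A ×ˢ {1} ∪ B ×ˢ {2} := by
    ext ⟨k, s⟩
    simp only [plain, A, B, mem_filter, mem_univ, true_and, mem_union, mem_product, mem_singleton]
    tauto
  have hc : (plain L P t v).card = A.card + B.card := by
    rw [hplain, card_union_of_disjoint, card_product, card_product, card_singleton, card_singleton,
      Nat.mul_one, Nat.mul_one]
    rw [disjoint_left]
    rintro ⟨k, s⟩ h1 h2
    simp only [mem_product, mem_singleton] at h1 h2
    have := h1.2.symm.trans h2.2
    exact absurd this (by decide)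
  rw [hc]
  omega

omit [Fintype V] in
theorem card_slots (L P : V → Option V) (t : ℕ) (v : V) :
    (slots L P t v).card = t + (plain L P t v).card := by
  unfold slots
  rw [card_union_of_disjoint]
  · congr 1
    have : univ.filter (fun p : Fin t × Fin 3 => p.2 = 0) = univ ×ˢ {0} := by
      ext ⟨k, s⟩
      simp only [mem_filter, mem_univ, true_and, mem_product, mem_singleton]
    rw [this, card_product, card_singleton, card_univ, Fintype.card_fin, Nat.mul_one]
  · rw [disjoint_left]
    rintro ⟨k, s⟩ h1 h2
    simp only [plain, mem_filter, mem_univ, true_and] at h1 h2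
    rcases h2 with ⟨h2, -⟩ | ⟨h2, -⟩
    · exact absurd (h1.symm.trans h2) (by decide)
    · exact absurd (h1.symm.trans h2) (by decide)

/-- the slots of the arcs -/
theorem exists_slot (ht : 2 ≤ t) (h : Sch G t univ L P rk) (hd : ∀ v, dU G univ v + 1 ≤ 3 * t)
    (v : V) : ∃ f : V → Fin t × Fin 3, (∀ u, L u = some v → f u ∈ slots L P t v) ∧
      (∀ u, P u = some v → f u ∈ plain L P t v) ∧
      ∀ u u', (L u = some v ∨ P u = some v) → (L u' = some v ∨ P u' = some v) → f u = f u' →
        u = u' := by
  let ι := {u : V // L u = some v ∨ P u = some v}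
  let T : ι → Finset (Fin t × Fin 3) := fun u =>
    if P u.1 = some v then plain L P t v else slots L P t v
  have hT : ∀ u, T u ⊆ slots L P t v := by
    intro u
    simp only [T]
    split_ifs
    · exact subset_union_right
    · exact Subset.refl _
  have hb := h.deg_bound (mem_univ v)
  have hcp := card_plain L P t v
  have hcs := card_slots L P t v
  have hPn : P v ≠ none → L v ≠ none := by
    intro h1
    obtain ⟨w, hw⟩ := Option.ne_none_iff_exists'.1 h1
    obtain ⟨z, hz, -⟩ := h.lp v (mem_univ v) w hw
    rw [hz]
    simp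
  -- number of in-arcs
  have htot : Fintype.card ι + (if P v = none then 0 else 1) + (if L v = none then 0 else 1) ≤
      dU G univ v := by
    have e1 : (if P v = none then 0 else 1) ≤ (univ.filter (fun u => P v = some u)).card := by
      split_ifs with h1
      · exact Nat.zero_le _
      · obtain ⟨w, hw⟩ := Option.ne_none_iff_exists'.1 h1
        exact card_pos.2 ⟨w, mem_filter.2 ⟨mem_univ _, hw⟩⟩
    have e2 : (if L v = none then 0 else 1) ≤ (univ.filter (fun u => L v = some u)).card := by
      split_ifs with h1
      · exact Nat.zero_le _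
      · obtain ⟨w, hw⟩ := Option.ne_none_iff_exists'.1 h1
        exact card_pos.2 ⟨w, mem_filter.2 ⟨mem_univ _, hw⟩⟩
    have e3 : Fintype.card ι = (univ.filter (fun u => L u = some v ∨ P u = some v)).card :=
      Fintype.card_subtype _
    have e4 : (univ.filter (fun u => L u = some v ∨ P u = some v)).card +
        (univ.filter (fun u => P v = some u)).card + (univ.filter (fun u => L v = some u)).card ≤
        dU G univ v := by
      rw [← card_union_of_disjoint, ← card_union_of_disjoint]
      · apply card_le_card
        intro u hu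
        simp only [mem_union, mem_filter, mem_univ, true_and] at hu ⊢
        rcases hu with ((h2 | h2) | h2) | h2
        · exact (h.l u (mem_univ _) v h2).2.1.symm
        · exact (h.p u (mem_univ _) v h2).2.1.symm
        · exact (h.p v (mem_univ _) u h2).2.1
        · exact (h.l v (mem_univ _) u h2).2.1
      · rw [disjoint_left]
        intro u hu hu'
        simp only [mem_union, mem_filter, mem_univ, true_and] at hu hu'
        have h4 := (h.l v (mem_univ _) u hu').2.2
        rcases hu with (h2 | h2) | h2
        · have := (h.l u (mem_univ _) v h2).2.2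
          omega
        · have := (h.p u (mem_univ _) v h2).2.2
          omega
        · obtain ⟨z, h3, h5⟩ := h.lp v (mem_univ _) u h2
          rw [hu'] at h3
          exact h5 (Option.some.inj h3).symm
      · rw [disjoint_left]
        intro u hu hu'
        simp only [mem_filter, mem_univ, true_and] at hu hu'
        have h4 := (h.p v (mem_univ _) u hu').2.2
        rcases hu with h2 | h2
        · have := (h.l u (mem_univ _) v h2).2.2
          omega
        · have := (h.p u (mem_univ _) v h2).2.2
          omega
    omega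
  have hd' := hd v
  have hall : ∀ A : Finset ι, A.card ≤ (A.biUnion T).card := by
    intro A
    rcases A.eq_empty_or_nonempty with rfl | hA
    · simp
    by_cases hex : ∃ u ∈ A, ¬ P u.1 = some v
    · obtain ⟨u, hu, hPu⟩ := hex
      have h1 : slots L P t v ⊆ A.biUnion T := by
        have : T u = slots L P t v := by
          simp only [T]
          rw [if_neg hPu]
        rw [← this]
        exact subset_biUnion_of_mem T hu
      refine le_trans ?_ (card_le_card h1)
      have h2 : A.card ≤ Fintype.card ι := card_le_univ A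
      rw [hcs]
      by_cases hL : L v = none
      · have hP : P v = none := by
          by_contra h3
          exact hPn h3 hL
        rw [if_pos hL, if_pos hP] at *
        omega
      · by_cases hP : P v = none
        · rw [if_neg hL, if_pos hP] at *
          omega
        · rw [if_neg hL, if_neg hP] at *
          omega
    · push Not at hex
      obtain ⟨u, hu⟩ := hA
      have h1 : plain L P t v ⊆ A.biUnion T := by
        have : T u = plain L P t v := by
          simp only [T]
          rw [if_pos (hex u hu)]
        rw [← this]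
        exact subset_biUnion_of_mem T hu
      refine le_trans ?_ (card_le_card h1)
      have h2 : A.card ≤ inP univ P v := by
        unfold inP
        have : A.card = (A.image (Subtype.val : ι → V)).card :=
          (card_image_of_injective _ Subtype.val_injective).symm
        rw [this]
        apply card_le_card
        intro w hw
        obtain ⟨u', hu', rfl⟩ := mem_image.1 hw
        exact mem_filter.2 ⟨mem_univ _, hex u' hu'⟩
      by_cases hL : L v = none
      · have hP : P v = none := by
          by_contra h3
          exact hPn h3 hL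
        have h4 := h.cap3 v (mem_univ _)
        rw [if_pos hL, if_pos hP] at hcp
        omega
      · by_cases hP : P v = none
        · have h4 := h.cap2 v (mem_univ _) hL
          rw [if_neg hL, if_pos hP] at hcp
          omega
        · have h4 := h.cap1 v (mem_univ _) hP
          rw [if_neg hL, if_neg hP] at hcp
          omega
  obtain ⟨g, hg1, hg2⟩ := (Finset.all_card_le_biUnion_card_iff_exists_injective T).1 hall
  have h0 : 0 < t := by omega
  refine ⟨fun u => if hu : L u = some v ∨ P u = some v then g ⟨u, hu⟩ else (⟨0, h0⟩, 0), ?_, ?_, ?_⟩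
  · intro u hu
    simp only [dif_pos (Or.inl hu : L u = some v ∨ P u = some v)]
    exact hT _ (hg2 ⟨u, Or.inl hu⟩)
  · intro u hu
    simp only [dif_pos (Or.inr hu : L u = some v ∨ P u = some v)]
    have := hg2 ⟨u, Or.inr hu⟩
    simp only [T] at this
    rwa [if_pos hu] at this
  · intro u u' hu hu' he
    simp only [dif_pos hu, dif_pos hu'] at he
    exact congrArg Subtype.val (hg1 he)

/-- next position -/
def next {β : Type} (x : β × ℤ × ℕ) (s : Fin 3) : β × ℤ × ℕ :=
  if s = 0 then (x.1, x.2.1, x.2.2 + 1)
  else if s = 1 then (x.1, if x.2.1 < 0 then x.2.1 - 1 else x.2.1 + 1, x.2.2)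
  else (x.1, x.2.1 - 1, x.2.2)

theorem exists_comb (ht : 2 ≤ t) (h : Sch G t univ L P rk) (hd : ∀ v, dU G univ v + 1 ≤ 3 * t) :
    ∃ (place : V × Fin t → ℤ × ℕ), Comb G t (V × Fin t) Prod.fst place := by
  choose f hfL hfP hfi using exists_slot ht h hd
  -- the parent of a bar
  obtain ⟨par, hpardef⟩ : ∃ par : V × Fin t → Option ((V × Fin t) × Fin 3),
      par = fun b => (tgt L P b).map (fun w => ((w, (f w b.1).1), (f w b.1).2)) := ⟨_, rfl⟩
  have hpar : ∀ b c s, par b = some (c, s) ↔ ∃ w, tgt L P b = some w ∧
      c = (w, (f w b.1).1) ∧ s = (f w b.1).2 := by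
    intro b c s
    rw [hpardef]
    simp only [Option.map_eq_some_iff, Prod.mk.injEq]
    constructor
    · rintro ⟨w, h1, h2, h3⟩
      exact ⟨w, h1, h2.symm, h3.symm⟩
    · rintro ⟨w, h1, h2, h3⟩
      exact ⟨w, h1, h2.symm, h3.symm⟩
  have hparnone : ∀ b, par b = none ↔ tgt L P b = none := by
    intro b
    rw [hpardef]
    simp
  have htgt : ∀ b : V × Fin t, ∀ w, tgt L P b = some w →
      (b.2.val = 0 ∧ L b.1 = some w) ∨ (b.2.val = 1 ∧ P b.1 = some w) := by
    intro b w hb
    unfold tgt at hb
    split_ifs at hb with h1 h2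
    · exact Or.inl ⟨h1, hb⟩
    · exact Or.inr ⟨h2, hb⟩
  have hrk : ∀ b c s, par b = some (c, s) → rk c.1 < rk b.1 := by
    intro b c s hb
    obtain ⟨w, h1, rfl, -⟩ := (hpar b c s).1 hb
    rcases htgt b w h1 with ⟨-, h2⟩ | ⟨-, h2⟩
    · exact (h.l _ (mem_univ _) _ h2).2.2
    · exact (h.p _ (mem_univ _) _ h2).2.2
  have hadj : ∀ b c s, par b = some (c, s) → G.Adj b.1 c.1 := by
    intro b c s hb
    obtain ⟨w, h1, rfl, -⟩ := (hpar b c s).1 hb
    rcases htgt b w h1 with ⟨-, h2⟩ | ⟨-, h2⟩
    · exact (h.l _ (mem_univ _) _ h2).2.1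
    · exact (h.p _ (mem_univ _) _ h2).2.1
  -- the parent and the slot determine the bar
  have hpinj : ∀ b b' c s, par b = some (c, s) → par b' = some (c, s) → b = b' := by
    intro b b' c s hb hb'
    obtain ⟨w, h1, h2, h3⟩ := (hpar b c s).1 hb
    obtain ⟨w', h1', h2', h3'⟩ := (hpar b' c s).1 hb'
    have hw : w = w' := by
      have := congrArg Prod.fst (h2.symm.trans h2')
      exact this
    subst hw
    have hk : (f w b.1).1 = (f w b'.1).1 := congrArg Prod.snd (h2.symm.trans h2')
    have hff : f w b.1 = f w b'.1 := Prod.ext hk (h3.symm.trans h3')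
    have hbt := htgt b w h1
    have hbt' := htgt b' w h1'
    have hv : b.1 = b'.1 := by
      refine hfi w b.1 b'.1 ?_ ?_ hff
      · rcases hbt with ⟨-, h4⟩ | ⟨-, h4⟩
        · exact Or.inl h4
        · exact Or.inr h4
      · rcases hbt' with ⟨-, h4⟩ | ⟨-, h4⟩
        · exact Or.inl h4
        · exact Or.inr h4
    refine Prod.ext hv (Fin.ext ?_)
    rcases hbt with ⟨h4, h5⟩ | ⟨h4, h5⟩ <;> rcases hbt' with ⟨h6, h7⟩ | ⟨h6, h7⟩
    · omega
    · rw [← hv] at h7
      obtain ⟨z, h8, h9⟩ := h.lp _ (mem_univ _) _ h7
      rw [h5] at h8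
      exact absurd (Option.some.inj h8).symm h9
    · rw [← hv] at h7
      obtain ⟨z, h8, h9⟩ := h.lp _ (mem_univ _) _ h5
      rw [h7] at h8
      exact absurd (Option.some.inj h8).symm h9
    · omega
  -- slots
  have hslot0 : ∀ b c, par b = some (c, 0) → b.2.val = 0 ∧ L b.1 ≠ none := by
    intro b c hb
    obtain ⟨w, h1, h2, h3⟩ := (hpar b c 0).1 hb
    rcases htgt b w h1 with ⟨h4, h5⟩ | ⟨h4, h5⟩
    · exact ⟨h4, by rw [h5]; simp⟩
    · have := hfP w b.1 h5
      simp only [plain, mem_filter, mem_univ, true_and] at this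
      rw [← h3] at this
      rcases this with ⟨h6, -⟩ | ⟨h6, -⟩
      · exact absurd h6 (by decide)
      · exact absurd h6 (by decide)
  have hslotp : ∀ b c s, par b = some (c, s) → s ≠ 0 →
      (s = 1 ∧ ¬ (c.2.val = 0 ∧ L c.1 ≠ none)) ∨ (s = 2 ∧ tgt L P c = none) := by
    intro b c s hb hs
    obtain ⟨w, h1, h2, h3⟩ := (hpar b c s).1 hb
    have hmem : f w b.1 ∈ slots L P t w := by
      rcases htgt b w h1 with ⟨h4, h5⟩ | ⟨h4, h5⟩
      · exact hfL w b.1 h5
      · exact mem_union_right _ (hfP w b.1 h5)
    unfold slots at hmem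
    rcases mem_union.1 hmem with h4 | h4
    · rw [mem_filter] at h4
      exact absurd (h3.trans h4.2) hs
    · simp only [plain, mem_filter, mem_univ, true_and] at h4
      rw [← h3] at h4
      rw [h2]
      exact h4
  -- positions
  obtain ⟨pos, hpos0, hpos1⟩ := exists_rec (fun b : V × Fin t => rk b.1) par hrk
    (fun b => (b, (0 : ℤ), (0 : ℕ))) next
  have hs3 : ∀ s : Fin 3, s = 0 ∨ s = 1 ∨ s = 2 := by decide
  have hcase : ∀ b, par b = none ∨ ∃ c s, par b = some (c, s) := by
    intro b
    rcases hp : par b with _ | ⟨c, s⟩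
    · exact Or.inl rfl
    · exact Or.inr ⟨c, s, rfl⟩
  -- only bars of the first kind are not in the spine
  have hI1 : ∀ b, 1 ≤ (pos b).2.2 → b.2.val = 0 ∧ L b.1 ≠ none := by
    have : ∀ n, ∀ b : V × Fin t, rk b.1 = n → 1 ≤ (pos b).2.2 → b.2.val = 0 ∧ L b.1 ≠ none := by
      intro n
      induction n using Nat.strong_induction_on with
      | _ n ih =>
      intro b hbn hj
      rcases hcase b with hb | ⟨c, s, hb⟩
      · rw [hpos0 b hb] at hj
        simp at hj
      · by_cases hs : s = 0
        · subst hs
          exact hslot0 b c hb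
        · exfalso
          have hr := hrk b c s hb
          have h1 : ¬ 1 ≤ (pos c).2.2 := by
            intro h2
            have h3 := ih _ (by omega) c rfl h2
            rcases hslotp b c s hb hs with ⟨-, h4⟩ | ⟨-, h4⟩
            · exact h4 h3
            · unfold tgt at h4
              rw [if_pos h3.1] at h4
              exact h3.2 h4
          rw [hpos1 b c s hb] at hj
          unfold next at hj
          rw [if_neg hs] at hj
          split_ifs at hj
          · exact h1 hj
          · exact h1 hj
          · exact h1 hj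
    exact fun b => this _ b rfl
  -- description of the position of a child
  have hstep : ∀ b c s, par b = some (c, s) →
      (s = 0 ∧ pos b = ((pos c).1, (pos c).2.1, (pos c).2.2 + 1)) ∨
      (s = 1 ∧ (pos c).2.2 = 0 ∧ (pos c).2.1 < 0 ∧ pos b = ((pos c).1, (pos c).2.1 - 1, 0)) ∨
      (s = 1 ∧ (pos c).2.2 = 0 ∧ 0 ≤ (pos c).2.1 ∧ pos b = ((pos c).1, (pos c).2.1 + 1, 0)) ∨
      (s = 2 ∧ pos c = (c, 0, 0) ∧ pos b = (c, -1, 0)) := by
    intro b c s hb
    have h1 := hpos1 b c s hb
    rcases hs3 s with rfl | rfl | rfl
    · left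
      refine ⟨rfl, ?_⟩
      rw [h1]
      rfl
    · right
      rcases hslotp b c 1 hb (by decide) with ⟨-, h2⟩ | ⟨h2, -⟩
      · have h3 : (pos c).2.2 = 0 := by
          by_contra h4
          exact h2 (hI1 c (Nat.one_le_iff_ne_zero.2 h4))
        rcases lt_or_ge (pos c).2.1 0 with h4 | h4
        · left
          refine ⟨rfl, h3, h4, ?_⟩
          rw [h1]
          unfold next
          rw [if_neg (by decide), if_pos rfl, if_pos h4, h3]
        · right; left
          refine ⟨rfl, h3, h4, ?_⟩
          rw [h1]
          unfold next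
          rw [if_neg (by decide), if_pos rfl, if_neg (not_lt.2 h4), h3]
      · exact absurd h2 (by decide)
    · right; right; right
      rcases hslotp b c 2 hb (by decide) with ⟨h2, -⟩ | ⟨-, h2⟩
      · exact absurd h2 (by decide)
      · have h3 := hpos0 c ((hparnone c).2 h2)
        refine ⟨rfl, h3, ?_⟩
        rw [h1, h3]
        unfold next
        rw [if_neg (by decide), if_neg (by decide)]
        rfl
  -- a child is not at the origin
  have hne0 : ∀ b c s, par b = some (c, s) → ¬ ((pos b).2.1 = 0 ∧ (pos b).2.2 = 0) := by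
    rintro b c s hb ⟨h1, h2⟩
    rcases hstep b c s hb with ⟨-, h3⟩ | ⟨-, -, h4, h3⟩ | ⟨-, -, h4, h3⟩ | ⟨-, -, h3⟩
    · rw [h3] at h2
      simp at h2
    · rw [h3] at h1
      simp only at h1
      omega
    · rw [h3] at h1
      simp only at h1
      omega
    · rw [h3] at h1
      simp at h1
  -- injectivity
  have hinj : ∀ b b', pos b = pos b' → b = b' := by
    have : ∀ n, ∀ b b' : V × Fin t, rk b.1 = n → pos b = pos b' → b = b' := by
      intro n
      induction n using Nat.strong_induction_on with
      | _ n ih =>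
      intro b b' hbn he
      rcases hcase b with hb | ⟨c, s, hb⟩
      · rcases hcase b' with hb' | ⟨c', s', hb'⟩
        · rw [hpos0 b hb, hpos0 b' hb'] at he
          exact congrArg Prod.fst he
        · exfalso
          have h1 := hpos0 b hb
          rw [h1] at he
          apply hne0 b' c' s' hb'
          rw [← he]
          exact ⟨rfl, rfl⟩
      · rcases hcase b' with hb' | ⟨c', s', hb'⟩
        · exfalso
          have h1 := hpos0 b' hb'
          rw [h1] at he
          apply hne0 b c s hb
          rw [he]
          exact ⟨rfl, rfl⟩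
        · have hr := hrk b c s hb
          have hcc : pos c = pos c' ∧ s = s' := by
            rcases hstep b c s hb with ⟨rfl, h3⟩ | ⟨rfl, h0, h4, h3⟩ | ⟨rfl, h0, h4, h3⟩ |
              ⟨rfl, h4, h3⟩ <;>
            rcases hstep b' c' s' hb' with ⟨rfl, h3'⟩ | ⟨rfl, h0', h4', h3'⟩ |
              ⟨rfl, h0', h4', h3'⟩ | ⟨rfl, h4', h3'⟩ <;>
            rw [h3, h3'] at he <;>
            simp only [Prod.mk.injEq] at he
            · refine ⟨Prod.ext he.1 (Prod.ext he.2.1 ?_), rfl⟩
              have := he.2.2
              omega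
            · exact absurd he.2.2 (by omega)
            · exact absurd he.2.2 (by omega)
            · exact absurd he.2.2 (by omega)
            · exact absurd he.2.2 (by omega)
            · refine ⟨Prod.ext he.1 (Prod.ext ?_ (h0.trans h0'.symm)), rfl⟩
              have := he.2.1
              omega
            · exact absurd he.2.1 (by omega)
            · exact absurd he.2.1 (by omega)
            · exact absurd he.2.2 (by omega)
            · exact absurd he.2.1 (by omega)
            · refine ⟨Prod.ext he.1 (Prod.ext ?_ (h0.trans h0'.symm)), rfl⟩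
              have := he.2.1
              omega
            · exact absurd he.2.1 (by omega)
            · exact absurd he.2.2 (by omega)
            · exact absurd he.2.1 (by omega)
            · exact absurd he.2.1 (by omega)
            · refine ⟨?_, rfl⟩
              rw [h4, h4', he.1]
          obtain ⟨h5, rfl⟩ := hcc
          have h6 := ih _ (by omega) c c' rfl h5
          subst h6
          exact hpinj b b' c s hb hb'
    exact fun b b' => this _ b b' rfl
  -- bound for the abscissa
  obtain ⟨K, hK⟩ : ∃ K : ℕ, ∀ b : V × Fin t, |(pos b).2.1| ≤ (K : ℤ) := by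
    refine ⟨univ.sup (fun b : V × Fin t => (pos b).2.1.natAbs), fun b => ?_⟩
    rw [Int.abs_eq_natAbs]
    exact_mod_cast le_sup (f := fun b : V × Fin t => (pos b).2.1.natAbs) (mem_univ b)
  obtain ⟨N, hN⟩ : ∃ N : V × Fin t → ℤ, Function.Injective N := by
    refine ⟨fun b => ((Fintype.equivFin (V × Fin t) b : ℕ) : ℤ), ?_⟩
    intro b b' he
    have h1 : (Fintype.equivFin (V × Fin t) b : ℕ) = (Fintype.equivFin (V × Fin t) b' : ℕ) := by
      simp only at he
      exact_mod_cast he
    exact (Fintype.equivFin (V × Fin t)).injective (Fin.ext h1)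
  obtain ⟨M, hM⟩ : ∃ M : ℤ, M = 2 * K + 2 := ⟨_, rfl⟩
  -- decoding
  have hdec : ∀ b b' : V × Fin t, ∀ e : ℤ, (e = 0 ∨ e = 1) →
      N (pos b').1 * M + (pos b').2.1 = N (pos b).1 * M + (pos b).2.1 + e →
      (pos b').1 = (pos b).1 ∧ (pos b').2.1 = (pos b).2.1 + e := by
    intro b b' e he h1
    have h2 := abs_le.1 (hK b)
    have h3 := abs_le.1 (hK b')
    have h4 : (N (pos b').1 - N (pos b).1) * M = (pos b).2.1 - (pos b').2.1 + e := by
      linear_combination h1
    have h5 : N (pos b').1 - N (pos b).1 = 0 := by
      have hK0 : (0 : ℤ) ≤ K := Int.natCast_nonneg K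
      by_contra hne
      rcases lt_or_gt_of_ne hne with h6 | h6
      · have h7 : N (pos b').1 - N (pos b).1 ≤ -1 := by omega
        have h8 : (N (pos b').1 - N (pos b).1) * M ≤ -1 * M :=
          mul_le_mul_of_nonneg_right h7 (by omega)
        rcases he with rfl | rfl <;> omega
      · have h7 : 1 ≤ N (pos b').1 - N (pos b).1 := by omega
        have h8 : 1 * M ≤ (N (pos b').1 - N (pos b).1) * M :=
          mul_le_mul_of_nonneg_right h7 (by omega)
        rcases he with rfl | rfl <;> omega
    rw [h5, zero_mul] at h4
    exact ⟨hN (by omega), by omega⟩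
  obtain ⟨place, hplace⟩ : ∃ place : V × Fin t → ℤ × ℕ,
      ∀ b, place b = (N (pos b).1 * M + (pos b).2.1, (pos b).2.2) := ⟨_, fun _ => rfl⟩
  refine ⟨place, ⟨?_, ?_, ?_, ?_, ?_⟩⟩
  · intro b b' he
    rw [hplace, hplace, Prod.mk.injEq] at he
    obtain ⟨h1, h2⟩ := hdec b' b 0 (Or.inl rfl) (by rw [add_zero]; exact he.1)
    rw [add_zero] at h2
    exact hinj b b' (Prod.ext h1 (Prod.ext h2 he.2))
  · intro b i j hb
    rw [hplace, Prod.mk.injEq] at hb
    rcases hcase b with hb' | ⟨c, s, hb'⟩
    · rw [hpos0 b hb'] at hb
      exact absurd hb.2 (by simp)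
    · refine ⟨c, ?_, hadj b c s hb'⟩
      rcases hstep b c s hb' with ⟨-, h3⟩ | ⟨-, -, -, h3⟩ | ⟨-, -, -, h3⟩ | ⟨-, -, h3⟩
      · rw [hplace, Prod.mk.injEq]
        rw [h3] at hb
        simp only at hb
        exact ⟨hb.1, by omega⟩
      · rw [h3] at hb
        exact absurd hb.2 (by simp)
      · rw [h3] at hb
        exact absurd hb.2 (by simp)
      · rw [h3] at hb
        exact absurd hb.2 (by simp)
  · intro b b' i hb hb'
    rw [hplace, Prod.mk.injEq] at hb hb'
    obtain ⟨h1, h2⟩ := hdec b b' 1 (Or.inr rfl) (by rw [hb.1, hb'.1])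
    rcases lt_or_ge (pos b).2.1 0 with hi | hi
    · -- the bar `b` is a child of `b'`
      rcases hcase b with hc | ⟨c, s, hc⟩
      · rw [hpos0 b hc] at hi
        exact absurd hi (by simp)
      · have hcb : c = b' := by
          apply hinj
          rcases hstep b c s hc with ⟨-, h3⟩ | ⟨-, h5, h4, h3⟩ | ⟨-, h5, h4, h3⟩ | ⟨-, h4, h3⟩
          · rw [h3] at hb
            exact absurd hb.2 (by simp)
          · rw [h3] at h1 h2
            simp only at h1 h2
            exact Prod.ext h1.symm (Prod.ext (by omega) (h5.trans hb'.2.symm))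
          · rw [h3] at hi
            simp only at hi
            omega
          · rw [h3] at h1 h2
            simp only at h1 h2
            rw [h4]
            exact Prod.ext h1.symm (Prod.ext (by simp only; omega) hb'.2.symm)
        subst hcb
        exact hadj b c s hc
    · -- the bar `b'` is a child of `b`
      rcases hcase b' with hc | ⟨c, s, hc⟩
      · rw [hpos0 b' hc] at h2
        simp only at h2
        omega
      · have hcb : c = b := by
          apply hinj
          rcases hstep b' c s hc with ⟨-, h3⟩ | ⟨-, h5, h4, h3⟩ | ⟨-, h5, h4, h3⟩ | ⟨-, h4, h3⟩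
          · rw [h3] at hb'
            exact absurd hb'.2 (by simp)
          · rw [h3] at h2
            simp only at h2
            omega
          · rw [h3] at h1 h2
            simp only at h1 h2
            exact Prod.ext h1 (Prod.ext (by omega) (h5.trans hb.2.symm))
          · rw [h3] at h2
            simp only at h2
            omega
        subst hcb
        exact (hadj b' c s hc).symm
  · -- covering
    have hcov : ∀ b c s, par b = some (c, s) → ∃ b₁ b₂, s(b₁.1, b₂.1) = s(b.1, c.1) ∧
        ((∃ i j, place b₁ = (i, j) ∧ place b₂ = (i, j + 1)) ∨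
          ∃ i, place b₁ = (i, 0) ∧ place b₂ = (i + 1, 0)) := by
      intro b c s hb
      rcases hstep b c s hb with ⟨-, h3⟩ | ⟨-, h5, h4, h3⟩ | ⟨-, h5, h4, h3⟩ | ⟨-, h4, h3⟩
      · refine ⟨c, b, Sym2.eq_swap, Or.inl ⟨_, _, hplace c, ?_⟩⟩
        rw [hplace, h3]
      · refine ⟨b, c, rfl, Or.inr ⟨N (pos c).1 * M + ((pos c).2.1 - 1), ?_, ?_⟩⟩
        · rw [hplace, h3]
        · rw [hplace, h5]
          congr 1
          ring
      · refine ⟨c, b, Sym2.eq_swap, Or.inr ⟨N (pos c).1 * M + (pos c).2.1, ?_, ?_⟩⟩
        · rw [hplace, h5]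
        · rw [hplace, h3]
          congr 1
          ring
      · refine ⟨b, c, rfl, Or.inr ⟨N c * M + -1, ?_, ?_⟩⟩
        · rw [hplace, h3]
        · rw [hplace, h4]
          congr 1
          ring
    have hL' : ∀ v w, L v = some w → ∃ b₁ b₂ : V × Fin t, s(b₁.1, b₂.1) = s(v, w) ∧
        ((∃ i j, place b₁ = (i, j) ∧ place b₂ = (i, j + 1)) ∨
          ∃ i, place b₁ = (i, 0) ∧ place b₂ = (i + 1, 0)) := by
      intro v w hv
      have h1 : par (v, ⟨0, by omega⟩) = some ((w, (f w v).1), (f w v).2) := by
        rw [hpar]
        exact ⟨w, by unfold tgt; rw [if_pos rfl]; exact hv, rfl, rfl⟩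
      exact hcov _ _ _ h1
    have hP' : ∀ v w, P v = some w → ∃ b₁ b₂ : V × Fin t, s(b₁.1, b₂.1) = s(v, w) ∧
        ((∃ i j, place b₁ = (i, j) ∧ place b₂ = (i, j + 1)) ∨
          ∃ i, place b₁ = (i, 0) ∧ place b₂ = (i + 1, 0)) := by
      intro v w hv
      have h1 : par (v, ⟨1, by omega⟩) = some ((w, (f w v).1), (f w v).2) := by
        rw [hpar]
        refine ⟨w, ?_, rfl, rfl⟩
        unfold tgt
        rw [if_neg (by simp), if_pos rfl]
        exact hv
      exact hcov _ _ _ h1
    intro v w hvw
    rcases h.cover v (mem_univ _) w (mem_univ _) hvw with h1 | h1 | h1 | h1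
    · exact hL' v w h1
    · exact hP' v w h1
    · obtain ⟨b₁, b₂, h2, h3⟩ := hL' w v h1
      exact ⟨b₁, b₂, h2.trans Sym2.eq_swap, h3⟩
    · obtain ⟨b₁, b₂, h2, h3⟩ := hP' w v h1
      exact ⟨b₁, b₂, h2.trans Sym2.eq_swap, h3⟩
  · intro v
    have : univ.filter (fun b : V × Fin t => b.1 = v) ⊆ (univ : Finset (Fin t)).image (fun k => (v, k)) := by
      rintro ⟨w, k⟩ hb
      rw [mem_filter] at hb
      rw [mem_image]
      exact ⟨k, mem_univ _, by rw [← hb.2]⟩
    refine (card_le_card this).trans (card_image_le.trans ?_)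
    rw [card_univ, Fintype.card_fin]

/-- sparse graphs of maximum degree at most `3 t - 1` -/
theorem hasRep_of_sparse (G : SimpleGraph V) (t : ℕ) (ht : 2 ≤ t)
    (hs : ∀ W : Finset V, W.Nonempty → 5 * eIn G W < 7 * W.card)
    (hd : ∀ v, dg G v + 1 ≤ 3 * t) : HasRep G t := by
  obtain ⟨L, P, rk, h⟩ := exists_sch G t ht hs univ
  obtain ⟨place, hp⟩ := exists_comb ht h hd
  exact geom hp

end

end Pool.Agent.V7H32.UB
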