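import Pool.Agent.R42.UB.Dual

/-!
# Planar graphs of girth at least seven are sparse
-/

set_option autoImplicit false

namespace Pool.Agent.V7H32.UB

open Finset Classical H279R3 MP_482ee1 MP_482ee1.Dual

noncomputable section

/-- a nonempty even set of edges contains a cycle, hence has at least `n` elements when the
girth is at least `n` -/
theorem girth_le_even {V : Type} {H G : SimpleGraph V} (hle : H ≤ G) {n : ℕ}
    (hg : (n : ℕ∞) ≤ G.egirth) {F : Set (Sym2 V)} (hF : EvenSet H F)
    (hfin : F.Finite) (hne : F.Nonempty) : n ≤ F.ncard := by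
  obtain ⟨v, c, hc, hcF⟩ := hF.exists_cycle hfin hne
  have h1 : n ≤ c.length := by
    have h := SimpleGraph.le_egirth.1 hg v (c.mapLe hle) (hc.mapLe hle)
    rw [SimpleGraph.Walk.length_mapLe] at h
    exact_mod_cast h
  have h2 : c.edges.toFinset.card = c.length := by
    rw [List.toFinset_card_of_nodup hc.isCircuit.isTrail.edges_nodup,
      SimpleGraph.Walk.length_edges]
  have h3 : ((c.edges.toFinset : Finset (Sym2 V)) : Set (Sym2 V)) ⊆ F := by
    intro e he
    rw [mem_coe, List.mem_toFinset] at he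
    exact hcF e he
  have h4 := Set.ncard_le_ncard h3 hfin
  rw [Set.ncard_coe_finset] at h4
  omega

section main

variable {V K : Type} {H : SimpleGraph V} (E : Finset (Sym2 V)) (W : Finset V)

theorem handshake (hE : ∀ e ∈ E, e ∈ H.edgeSet) (hW : ∀ e ∈ E, ∀ v ∈ e, v ∈ W) :
    ∑ v ∈ W, (E.filter (v ∈ ·)).card = 2 * E.card := by
  have h := sum_card_bipartiteAbove_eq_sum_card_bipartiteBelow (s := W) (t := E)
    (fun (v : V) (e : Sym2 V) => v ∈ e)
  unfold bipartiteAbove bipartiteBelow at h
  rw [h, mul_comm, ← smul_eq_mul, ← sum_const]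
  refine sum_congr rfl ?_
  intro e he
  have h1 := hE e he
  have h2 := hW e he
  induction e using Sym2.ind with
  | _ a b =>
    have hab : a ≠ b := (show H.Adj a b from h1).ne
    have h3 : W.filter (fun v => v ∈ s(a, b)) = {a, b} := by
      ext x
      simp only [mem_filter, Sym2.mem_iff, mem_insert, mem_singleton]
      constructor
      · exact fun h => h.2
      · intro h
        exact ⟨h2 x (Sym2.mem_iff.2 h), h⟩
    rw [h3, card_pair hab]

theorem evenSet_of' (hE : ∀ e, e ∈ E ↔ e ∈ H.edgeSet) (hW : ∀ e ∈ E, ∀ v ∈ e, v ∈ W)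
    {w0 : V} (hw0 : w0 ∈ W)
    {F F' : Finset (Sym2 V)} (hF : F ⊆ E) (hF' : F' ⊆ E)
    (h : odd (W.erase w0) F = odd (W.erase w0) F') :
    EvenSet H (↑(symmDiff F F') : Set (Sym2 V)) := by
  have hsub : symmDiff F F' ⊆ E := by
    intro e he
    rw [mem_symmDiff] at he
    rcases he with he | he
    · exact hF he.1
    · exact hF' he.1
  have key : ∀ v, v ∈ W → v ≠ w0 → Even ((symmDiff F F').filter (v ∈ ·)).card := by
    intro v hv hv0
    have h2 : (symmDiff F F').filter (v ∈ ·) = symmDiff (F.filter (v ∈ ·)) (F'.filter (v ∈ ·)) := by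
      ext e
      simp only [mem_filter, mem_symmDiff]
      tauto
    rw [h2, even_iff_zmod, symmDiff_card_parity]
    have h3 : Odd (F.filter (v ∈ ·)).card ↔ Odd (F'.filter (v ∈ ·)).card := by
      have := congrArg (fun S => v ∈ S) h
      simp only [odd, mem_filter, mem_erase, hv, hv0, ne_eq, not_false_eq_true, true_and] at this
      exact iff_of_eq this
    rw [← Nat.cast_add, ← even_iff_zmod, Nat.even_add, ← Nat.not_odd_iff_even,
      ← Nat.not_odd_iff_even, h3]
  refine ⟨fun e he => (hE e).1 (hsub he), fun v => ?_⟩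
  have h1 : (↑(symmDiff F F') : Set (Sym2 V)) ∩ {e | v ∈ e} =
      ↑((symmDiff F F').filter (v ∈ ·)) := by
    ext e
    simp only [Set.mem_inter_iff, mem_coe, Set.mem_ofPred_eq, mem_filter]
  rw [h1, Set.ncard_coe_finset]
  by_cases hv : v ∈ W
  · by_cases hv0 : v = w0
    · subst hv0
      have hs := handshake (H := H) (symmDiff F F') W (fun e he => (hE e).1 (hsub he))
        (fun e he => hW e (hsub he))
      rw [← add_sum_erase W _ hv] at hs
      have h4 : Even (∑ x ∈ W.erase v, ((symmDiff F F').filter (x ∈ ·)).card) := by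
        refine even_sum _ ?_
        intro x hx
        rw [mem_erase] at hx
        exact key x hx.2 hx.1
      have h5 : Even (2 * (symmDiff F F').card) := even_two_mul _
      rw [← hs, Nat.even_add] at h5
      exact h5.2 h4
    · exact key v hv hv0
  · have h2 : (symmDiff F F').filter (v ∈ ·) = ∅ := by
      rw [filter_eq_empty_iff]
      intro e he hve
      exact hv (hW e (hsub he) v hve)
    rw [h2]
    simp

theorem count_even' (hE : ∀ e, e ∈ E ↔ e ∈ H.edgeSet) (hW : ∀ e ∈ E, ∀ v ∈ e, v ∈ W)
    (hne : W.Nonempty) :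
    2 ^ E.card ≤ (ev H E).card * 2 ^ (W.card - 1) := by
  obtain ⟨w0, hw0⟩ := hne
  have h := card_le_mul_card_image_of_maps_to (s := E.powerset) (t := (W.erase w0).powerset)
    (f := odd (W.erase w0)) (fun F _ => mem_powerset.2 (filter_subset _ _)) (ev H E).card ?_
  · rwa [card_powerset, card_powerset, card_erase_of_mem hw0] at h
  · intro U _
    rcases (E.powerset.filter (fun F => odd (W.erase w0) F = U)).eq_empty_or_nonempty with
      h0 | ⟨F0, h0⟩
    · rw [h0]
      simp
    · rw [mem_filter, mem_powerset] at h0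
      refine card_le_card_of_injOn (fun F => symmDiff F F0) ?_ ?_
      · intro F hF
        simp only [coe_filter, mem_powerset, Set.mem_ofPred_eq] at hF
        simp only [ev, coe_filter, mem_powerset, Set.mem_ofPred_eq]
        refine ⟨?_, evenSet_of' E W hE hW hw0 hF.1 h0.1 (hF.2.trans h0.2.symm)⟩
        intro e he
        rw [mem_symmDiff] at he
        rcases he with he | he
        · exact hF.1 he.1
        · exact h0.1 he.1
      · intro F _ F' _ hFF'
        exact symmDiff_left_injective F0 hFF'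

variable (ends : Sym2 V → Sym2 K)

theorem count_T' {n : ℕ} (hE : ∀ e, e ∈ E ↔ e ∈ H.edgeSet)
    (hcut : ∀ A : Set K, (cut H ends A).Finite → EvenSet H (cut H ends A))
    (hn : ∀ F : Set (Sym2 V), EvenSet H F → F.Finite → F.Nonempty → n ≤ F.ncard) :
    (T_finite E ends hE).toFinset.card * n ≤ E.card * 2 := by
  refine card_mul_le_card_mul (fun x e => e ∈ cut H ends {x}) ?_ ?_
  · intro x hx
    rw [Set.Finite.mem_toFinset] at hx
    have h1 : (cut H ends {x}) ⊆ ↑E := fun e he => (hE e).2 he.1
    have h2 : (cut H ends {x}).Finite := E.finite_toSet.subset h1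
    have h3 := hn _ (hcut _ h2) h2 hx
    have h4 : (cut H ends {x}) =
        ↑(bipartiteAbove (fun x e => e ∈ cut H ends {x}) E x) := by
      ext e
      simp only [coe_bipartiteAbove, Set.mem_ofPred_eq]
      exact ⟨fun h => ⟨h1 h, h⟩, fun h => h.2⟩
    rw [h4, Set.ncard_coe_finset] at h3
    exact h3
  · intro e _
    obtain ⟨x, y, hxy⟩ := ends_cases ends e
    refine (card_le_card (t := {x, y}) ?_).trans card_le_two
    intro z hz
    rw [mem_bipartiteBelow] at hz
    obtain ⟨-, -, ⟨w, hw, hw'⟩, -⟩ := hz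
    rw [Set.mem_singleton_iff] at hw'
    subst hw'
    rw [hxy, Sym2.mem_iff] at hw
    rw [mem_insert, mem_singleton]
    exact hw

end main

theorem gr_le {V : Type} (G : SimpleGraph V) (W : Finset V) : gr G W ≤ G := fun _ _ h => h.1

/-- planar graphs of girth at least seven have fewer than `7/5 |W|` edges inside `W` -/
theorem planar7 {V : Type} [Fintype V] (G : SimpleGraph V) (hp : Planar G) (hg : 7 ≤ G.egirth) :
    ∀ W : Finset V, W.Nonempty → 5 * eIn G W < 7 * W.card := by
  intro W hWne
  obtain ⟨pos, hpos⟩ := hp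
  have hd := gr_drawing hpos W
  have hfin : (gr G W).edgeSet.Finite := Set.toFinite _
  obtain ⟨pos', h1, h2⟩ := exists_generic hfin pos hd
  obtain ⟨S⟩ := sweep_of_drawing h1 h2
  obtain ⟨K, ends, h3, h4⟩ := S.exists_ends hfin
  set E := hfin.toFinset with hEdef
  have hE : ∀ e, e ∈ E ↔ e ∈ (gr G W).edgeSet := fun e => hfin.mem_toFinset
  have hW : ∀ e ∈ E, ∀ v ∈ e, v ∈ W := by
    intro e he v hv
    rw [hE, gr_edgeSet] at he
    exact he.2 v hv
  have hm : eIn G W = E.card := by
    unfold eIn
    rw [← gr_edgeSet, Set.ncard_eq_toFinset_card _ hfin]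
  rw [hm]
  have c1 := count_even' E W hE hW hWne
  have c2 := count_cut E ends hE h4
  have c3 := count_T' (n := 7) E ends hE h3
    (fun F hF hfin hne => girth_le_even (gr_le G W) (by exact_mod_cast hg) hF hfin hne)
  have c4 : 2 ^ E.card ≤ 2 ^ ((T_finite E ends hE).toFinset.card + (W.card - 1)) := by
    rw [pow_add]
    exact c1.trans (Nat.mul_le_mul_right _ c2)
  have c5 := (Nat.pow_le_pow_iff_right (by norm_num : 1 < 2)).1 c4
  have c6 : 1 ≤ W.card := hWne.card_pos
  omega

end

end Pool.Agent.V7H32.UB
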