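import Pool.Agent.R42.UB.Core

/-!
# MP_ff3568_co: combs are unit bar visibility graphs
-/

set_option autoImplicit false

open Finset Classical MP_482ee1

namespace Pool.Agent.V7H32.UB

/-- The height of the bar number `j` of the column `i`. -/
def YY (i : ℤ) (j : ℕ) : ℤ := if i % 2 = 0 then -(j : ℤ) else (j : ℤ) + 1

/-- The left end of the bar number `j` of the column `i`. -/
noncomputable def PP (p : ℤ × ℕ) : ℝ × ℝ := (((3 * p.1 : ℤ) : ℝ) / 5, ((YY p.1 p.2 : ℤ) : ℝ))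

/-- A placement of bars (elements of `β`, the bar `b` belonging to the vertex `owner b`) in a
comb: the spine consists of the positions `(i, 0)` and the tooth number `i` of the positions
`(i, j)`. -/
structure Comb {V : Type} (G : SimpleGraph V) (t : ℕ) (β : Type) [Fintype β] (owner : β → V)
    (place : β → ℤ × ℕ) : Prop where
  inj : Function.Injective place
  leg : ∀ b i j, place b = (i, j + 1) → ∃ b', place b' = (i, j) ∧ G.Adj (owner b) (owner b')
  spine : ∀ b b' i, place b = (i, 0) → place b' = (i + 1, 0) → G.Adj (owner b) (owner b')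
  cover : ∀ v w, G.Adj v w → ∃ b b', s(owner b, owner b') = s(v, w) ∧
    ((∃ i j, place b = (i, j) ∧ place b' = (i, j + 1)) ∨
      ∃ i, place b = (i, 0) ∧ place b' = (i + 1, 0))
  card : ∀ v, (univ.filter (fun b => owner b = v)).card ≤ t

theorem mem_seg_PP (i : ℤ) (j : ℕ) (x y : ℝ) :
    (x, y) ∈ seg (PP (i, j)) ↔ ((3 * i : ℤ) : ℝ) ≤ 5 * x ∧
      5 * x ≤ ((3 * i + 5 : ℤ) : ℝ) ∧ y = ((YY i j : ℤ) : ℝ) := by
  unfold seg PP
  rw [Set.mem_prod, Set.mem_Icc, Set.mem_singleton_iff]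
  push_cast
  constructor
  · rintro ⟨⟨h1, h2⟩, h3⟩
    exact ⟨by linarith, by linarith, h3⟩
  · rintro ⟨h1, h2, h3⟩
    exact ⟨⟨by linarith, by linarith⟩, h3⟩

theorem YY_eq {i i' : ℤ} {j j' : ℕ} (h : YY i j = YY i' j') (hne : (i, j) ≠ (i', j')) :
    3 * i + 5 < 3 * i' ∨ 3 * i' + 5 < 3 * i := by
  unfold YY at h
  by_contra hcon
  push Not at hcon
  apply hne
  have : i = i' := by split_ifs at h <;> omega
  subst this
  have : j = j' := by split_ifs at h <;> omega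
  rw [this]

theorem disj_PP (p p' : ℤ × ℕ) (h : p ≠ p') : Disjoint (seg (PP p)) (seg (PP p')) := by
  obtain ⟨i, j⟩ := p
  obtain ⟨i', j'⟩ := p'
  rw [Set.disjoint_left]
  rintro ⟨x, y⟩ h1 h2
  rw [mem_seg_PP] at h1 h2
  have hY : YY i j = YY i' j' := by exact_mod_cast h1.2.2.symm.trans h2.2.2
  rcases YY_eq hY h with h3 | h3
  · have h4 : ((3 * i + 5 : ℤ) : ℝ) < ((3 * i' : ℤ) : ℝ) := by exact_mod_cast h3
    linarith [h1.2.1, h2.1]
  · have h4 : ((3 * i' + 5 : ℤ) : ℝ) < ((3 * i : ℤ) : ℝ) := by exact_mod_cast h3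
    linarith [h1.1, h2.2.1]

theorem self_mem (b : ℝ × ℝ) : b ∈ seg b := by
  unfold seg
  exact ⟨⟨le_rfl, by linarith⟩, rfl⟩

theorem PP_inj {p p' : ℤ × ℕ} (h : PP p = PP p') : p = p' := by
  by_contra hne
  have h1 := disj_PP p p' hne
  rw [h] at h1
  exact Set.disjoint_left.1 h1 (self_mem _) (self_mem _)

/-- the bars of a tooth see each other -/
theorem sees_leg (B : Set (ℝ × ℝ)) (hB : ∀ d ∈ B, ∃ p, d = PP p) (i : ℤ) (j : ℕ) :
    Sees B (PP (i, j)) (PP (i, j + 1)) := by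
  refine ⟨((3 * i : ℤ) : ℝ) / 5, ((3 * i + 5 : ℤ) : ℝ) / 5, ?_, ?_, ?_, ?_⟩
  · push_cast; linarith
  · rintro ⟨x, y⟩ ⟨⟨hx1, hx2⟩, hy⟩
    rw [mem_seg_PP]
    exact ⟨by linarith, by linarith, hy⟩
  · rintro ⟨x, y⟩ ⟨⟨hx1, hx2⟩, hy⟩
    rw [mem_seg_PP]
    exact ⟨by linarith, by linarith, hy⟩
  · intro d hd hd1 hd2
    obtain ⟨⟨i', j'⟩, rfl⟩ := hB d hd
    rw [Set.disjoint_left]
    rintro ⟨x, y⟩ h1 h2
    rw [mem_seg_PP] at h1
    obtain ⟨⟨h3, h4⟩, h5⟩ := h2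
    obtain ⟨h6, h7, h8⟩ := h1
    simp only at h3 h4
    have e1 : (3 * i' : ℤ) ≤ 3 * i + 5 := by
      have : ((3 * i' : ℤ) : ℝ) ≤ ((3 * i + 5 : ℤ) : ℝ) := by linarith
      exact_mod_cast this
    have e2 : (3 * i : ℤ) ≤ 3 * i' + 5 := by
      have : ((3 * i : ℤ) : ℝ) ≤ ((3 * i' + 5 : ℤ) : ℝ) := by linarith
      exact_mod_cast this
    have hu : min (YY i j) (YY i (j + 1)) ≤ YY i' j' ∧ YY i' j' ≤ max (YY i j) (YY i (j + 1)) := by
      rw [Set.mem_uIcc] at h5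
      simp only [PP] at h5
      rw [h8] at h5
      rcases h5 with ⟨a, b⟩ | ⟨a, b⟩
      · have a' : YY i j ≤ YY i' j' := by exact_mod_cast a
        have b' : YY i' j' ≤ YY i (j + 1) := by exact_mod_cast b
        omega
      · have a' : YY i (j + 1) ≤ YY i' j' := by exact_mod_cast a
        have b' : YY i' j' ≤ YY i j := by exact_mod_cast b
        omega
    have hii : i' = i := by
      unfold YY at hu
      split_ifs at hu <;> omega
    subst hii
    have hjj : j' = j ∨ j' = j + 1 := by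
      unfold YY at hu
      split_ifs at hu <;> omega
    rcases hjj with rfl | rfl
    · exact hd1 rfl
    · exact hd2 rfl

/-- consecutive bars of the spine see each other -/
theorem sees_spine (B : Set (ℝ × ℝ)) (hB : ∀ d ∈ B, ∃ p, d = PP p) (i : ℤ) :
    Sees B (PP (i, 0)) (PP (i + 1, 0)) := by
  refine ⟨((3 * i + 3 : ℤ) : ℝ) / 5, ((3 * i + 5 : ℤ) : ℝ) / 5, ?_, ?_, ?_, ?_⟩
  · push_cast; linarith
  · rintro ⟨x, y⟩ ⟨⟨hx1, hx2⟩, hy⟩
    rw [mem_seg_PP]
    simp only at hx1 hx2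
    refine ⟨?_, by linarith, hy⟩
    push_cast at *
    linarith
  · rintro ⟨x, y⟩ ⟨⟨hx1, hx2⟩, hy⟩
    rw [mem_seg_PP]
    simp only at hx1 hx2
    refine ⟨?_, ?_, hy⟩
    · push_cast at *
      linarith
    · push_cast at *
      linarith
  · intro d hd hd1 hd2
    obtain ⟨⟨i', j'⟩, rfl⟩ := hB d hd
    rw [Set.disjoint_left]
    rintro ⟨x, y⟩ h1 h2
    rw [mem_seg_PP] at h1
    obtain ⟨⟨h3, h4⟩, h5⟩ := h2
    obtain ⟨h6, h7, h8⟩ := h1
    simp only at h3 h4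
    have e1 : (3 * i' : ℤ) ≤ 3 * i + 5 := by
      have : ((3 * i' : ℤ) : ℝ) ≤ ((3 * i + 5 : ℤ) : ℝ) := by linarith
      exact_mod_cast this
    have e2 : (3 * i + 3 : ℤ) ≤ 3 * i' + 5 := by
      have : ((3 * i + 3 : ℤ) : ℝ) ≤ ((3 * i' + 5 : ℤ) : ℝ) := by linarith
      exact_mod_cast this
    have hu : min (YY i 0) (YY (i + 1) 0) ≤ YY i' j' ∧ YY i' j' ≤ max (YY i 0) (YY (i + 1) 0) := by
      rw [Set.mem_uIcc] at h5
      simp only [PP] at h5
      rw [h8] at h5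
      rcases h5 with ⟨a, b⟩ | ⟨a, b⟩
      · have a' : YY i 0 ≤ YY i' j' := by exact_mod_cast a
        have b' : YY i' j' ≤ YY (i + 1) 0 := by exact_mod_cast b
        omega
      · have a' : YY (i + 1) 0 ≤ YY i' j' := by exact_mod_cast a
        have b' : YY i' j' ≤ YY i 0 := by exact_mod_cast b
        omega
    have key : (i' = i ∧ j' = 0) ∨ (i' = i + 1 ∧ j' = 0) := by
      unfold YY at hu
      split_ifs at hu <;> omega
    rcases key with ⟨rfl, rfl⟩ | ⟨rfl, rfl⟩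
    · exact hd1 rfl
    · exact hd2 rfl

theorem Sees.symm' {B : Set (ℝ × ℝ)} {b c : ℝ × ℝ} (h : Sees B b c) : Sees B c b := by
  obtain ⟨p, q, h1, h2, h3, h4⟩ := h
  refine ⟨p, q, h1, h3, h2, fun d hd h5 h6 => ?_⟩
  rw [Set.uIcc_comm]
  exact h4 d hd h6 h5

/-- which bars see each other -/
theorem adj_of_sees {B : Set (ℝ × ℝ)} {P : Set (ℤ × ℕ)} (hP : ∀ p ∈ P, PP p ∈ B)
    (hcl : ∀ i j, (i, j + 1) ∈ P → (i, j) ∈ P) {i i' : ℤ} {j j' : ℕ} (h1 : (i, j) ∈ P)
    (h2 : (i', j') ∈ P) (hne : (i, j) ≠ (i', j')) (hle : i < i' ∨ (i = i' ∧ j < j'))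
    (hs : Sees B (PP (i, j)) (PP (i', j'))) :
    (i' = i ∧ j' = j + 1) ∨ (i' = i + 1 ∧ j = 0 ∧ j' = 0) := by
  have hcl' : ∀ i j k, k ≤ j → (i, j) ∈ P → (i, k) ∈ P := by
    intro i j k hk h
    induction j with
    | zero =>
      obtain rfl : k = 0 := by omega
      exact h
    | succ j ih =>
      rcases Nat.lt_or_ge j k with h3 | h3
      · obtain rfl : k = j + 1 := by omega
        exact h
      · exact ih h3 (hcl i j h)
  obtain ⟨p, q, hpq, h3, h4, h5⟩ := hs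
  have a1 : (p, (PP (i, j)).2) ∈ seg (PP (i, j)) := h3 ⟨⟨le_rfl, hpq.le⟩, rfl⟩
  have a2 : (q, (PP (i, j)).2) ∈ seg (PP (i, j)) := h3 ⟨⟨hpq.le, le_rfl⟩, rfl⟩
  have a3 : (p, (PP (i', j')).2) ∈ seg (PP (i', j')) := h4 ⟨⟨le_rfl, hpq.le⟩, rfl⟩
  have a4 : (q, (PP (i', j')).2) ∈ seg (PP (i', j')) := h4 ⟨⟨hpq.le, le_rfl⟩, rfl⟩
  rw [mem_seg_PP] at a1 a2 a3 a4
  have e1 : (3 * i' : ℤ) < 3 * i + 5 := by
    have : ((3 * i' : ℤ) : ℝ) < ((3 * i + 5 : ℤ) : ℝ) := by
      have := a3.1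
      have := a2.2.1
      linarith
    exact_mod_cast this
  -- a bar in between
  have hmid : ∀ k l, (k, l) ∈ P → (k, l) ≠ (i, j) → (k, l) ≠ (i', j') → (k = i ∨ k = i') →
      ((YY i j ≤ YY k l ∧ YY k l ≤ YY i' j') ∨ (YY i' j' ≤ YY k l ∧ YY k l ≤ YY i j)) → False := by
    intro k l hk hk1 hk2 hk3 hk4
    have h6 := h5 (PP (k, l)) (hP _ hk) (fun h => hk1 (PP_inj h)) (fun h => hk2 (PP_inj h))
    rw [Set.disjoint_left] at h6
    refine h6 (a := (p, (PP (k, l)).2)) ?_ ⟨⟨le_rfl, hpq.le⟩, ?_⟩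
    · rw [mem_seg_PP]
      rcases hk3 with rfl | rfl
      · exact ⟨a1.1, a1.2.1, rfl⟩
      · exact ⟨a3.1, a3.2.1, rfl⟩
    · rw [Set.mem_uIcc]
      simp only [PP]
      rcases hk4 with ⟨c, d⟩ | ⟨c, d⟩
      · left; exact ⟨by exact_mod_cast c, by exact_mod_cast d⟩
      · right; exact ⟨by exact_mod_cast c, by exact_mod_cast d⟩
  rcases hle with hlt | ⟨rfl, hj⟩
  · right
    have hi : i' = i + 1 := by omega
    subst hi
    refine ⟨rfl, ?_, ?_⟩
    · by_contra hj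
      refine hmid i 0 (hcl' i j 0 (Nat.zero_le _) h1) (fun h => hj (Prod.mk.inj h).2.symm)
        (fun h => by have := (Prod.mk.inj h).1; omega) (Or.inl rfl) ?_
      unfold YY
      split_ifs <;> omega
    · by_contra hj
      refine hmid (i + 1) 0 (hcl' (i + 1) j' 0 (Nat.zero_le _) h2)
        (fun h => by have := (Prod.mk.inj h).1; omega) (fun h => hj (Prod.mk.inj h).2.symm)
        (Or.inr rfl) ?_
      unfold YY
      split_ifs <;> omega
  · left
    refine ⟨rfl, ?_⟩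
    by_contra hj'
    refine hmid i (j + 1) (hcl' i j' (j + 1) (by omega) h2)
      (fun h => by have := (Prod.mk.inj h).2; omega)
      (fun h => by have := (Prod.mk.inj h).2; omega) (Or.inl rfl) ?_
    unfold YY
    split_ifs <;> omega

theorem geom {V : Type} {G : SimpleGraph V} {t : ℕ} {β : Type} [Fintype β] {owner : β → V}
    {place : β → ℤ × ℕ} (h : Comb G t β owner place) : HasRep G t := by
  obtain ⟨S, hS⟩ : ∃ S : V → Finset (ℝ × ℝ),
      S = fun v => (univ.filter (fun b => owner b = v)).image (fun b => PP (place b)) := ⟨_, rfl⟩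
  have hmem : ∀ v x, x ∈ S v ↔ ∃ b, owner b = v ∧ PP (place b) = x := by
    intro v x
    rw [hS]
    simp only [mem_image, mem_filter, mem_univ, true_and]
  obtain ⟨B, hBdef⟩ : ∃ B : Set (ℝ × ℝ), B = {x | ∃ u, x ∈ S u} := ⟨_, rfl⟩
  have hB : ∀ x, x ∈ B ↔ ∃ b, PP (place b) = x := by
    intro x
    rw [hBdef]
    constructor
    · rintro ⟨u, hu⟩
      obtain ⟨b, -, hb⟩ := (hmem u x).1 hu
      exact ⟨b, hb⟩
    · rintro ⟨b, hb⟩
      exact ⟨owner b, (hmem _ _).2 ⟨b, rfl, hb⟩⟩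
  have hB' : ∀ d ∈ B, ∃ p, d = PP p := by
    intro d hd
    obtain ⟨b, hb⟩ := (hB d).1 hd
    exact ⟨_, hb.symm⟩
  refine ⟨S, ⟨?_, ?_, ?_⟩⟩
  · intro v
    rw [hS]
    exact card_image_le.trans (h.card v)
  · intro v w b c hb hc hne
    obtain ⟨b', rfl, rfl⟩ := (hmem v b).1 hb
    obtain ⟨c', rfl, rfl⟩ := (hmem w c).1 hc
    apply disj_PP
    intro he
    have := h.inj he
    subst this
    exact hne rfl
  · intro v w hvw
    rw [← hBdef]
    constructor
    · intro hadj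
      obtain ⟨b, b', h1, h2⟩ := h.cover v w hadj
      have hs : Sees B (PP (place b)) (PP (place b')) := by
        rcases h2 with ⟨i, j, h3, h4⟩ | ⟨i, h3, h4⟩
        · rw [h3, h4]; exact sees_leg B hB' i j
        · rw [h3, h4]; exact sees_spine B hB' i
      rw [Sym2.eq_iff] at h1
      rcases h1 with ⟨rfl, rfl⟩ | ⟨rfl, rfl⟩
      · exact ⟨_, (hmem _ _).2 ⟨b, rfl, rfl⟩, _, (hmem _ _).2 ⟨b', rfl, rfl⟩, hs⟩
      · exact ⟨_, (hmem _ _).2 ⟨b', rfl, rfl⟩, _, (hmem _ _).2 ⟨b, rfl, rfl⟩, Sees.symm' hs⟩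
    · rintro ⟨x, hx, y, hy, hs⟩
      obtain ⟨b, rfl, rfl⟩ := (hmem v x).1 hx
      obtain ⟨c, rfl, rfl⟩ := (hmem w y).1 hy
      have hcl : ∀ i j, (i, j + 1) ∈ Set.range place → (i, j) ∈ Set.range place := by
        rintro i j ⟨d, hd⟩
        obtain ⟨d', hd', -⟩ := h.leg d i j hd
        exact ⟨d', hd'⟩
      have hP : ∀ p ∈ Set.range place, PP p ∈ B := by
        rintro p ⟨d, rfl⟩
        exact (hB _).2 ⟨d, rfl⟩
      have main : ∀ b c, owner b ≠ owner c → Sees B (PP (place b)) (PP (place c)) →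
          ((place b).1 < (place c).1 ∨ ((place b).1 = (place c).1 ∧ (place b).2 < (place c).2)) →
          G.Adj (owner b) (owner c) := by
        intro b c hbc hs hlt
        have hne : place b ≠ place c := fun he => hbc (by rw [h.inj he])
        obtain ⟨⟨i, j⟩, hp⟩ : ∃ p, p = place b := ⟨_, rfl⟩
        obtain ⟨⟨i', j'⟩, hp'⟩ : ∃ p, p = place c := ⟨_, rfl⟩
        have hb1 : (i, j) ∈ Set.range place := ⟨b, hp.symm⟩
        have hc1 : (i', j') ∈ Set.range place := ⟨c, hp'.symm⟩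
        rw [← hp, ← hp'] at hs hlt hne
        rcases adj_of_sees hP hcl hb1 hc1 hne hlt hs with ⟨rfl, rfl⟩ | ⟨rfl, rfl, rfl⟩
        · obtain ⟨d, hd, hadj⟩ := h.leg c _ _ hp'.symm
          have : d = b := h.inj (hd.trans hp)
          subst this
          exact hadj.symm
        · exact h.spine b c i hp.symm hp'.symm
      have hne : place b ≠ place c := fun he => hvw (by rw [h.inj he])
      rcases lt_trichotomy (place b).1 (place c).1 with h1 | h1 | h1
      · exact main b c hvw hs (Or.inl h1)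
      · rcases lt_trichotomy (place b).2 (place c).2 with h2 | h2 | h2
        · exact main b c hvw hs (Or.inr ⟨h1, h2⟩)
        · exact absurd (Prod.ext h1 h2) hne
        · exact (main c b hvw.symm (Sees.symm' hs) (Or.inr ⟨h1.symm, h2⟩)).symm
      · exact (main c b hvw.symm (Sees.symm' hs) (Or.inl h1)).symm

end Pool.Agent.V7H32.UB
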