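import Pool.Agent.R42.UB.Defs

/-!
# Graphs of maximum degree at most two are unit bar visibility graphs
-/

set_option autoImplicit false

namespace Pool.Agent.V7H32.UB.Stack

open Finset Classical MP_482ee1

/-- `c v` is the number of the component of `v`, `p v` its position, and `L v` means that `v` is
the last vertex of a cyclic component. -/
structure Stk {V : Type} (G : SimpleGraph V) (S : Finset V) (c p : V → ℕ) (L : V → Prop) :
    Prop where
  inj : ∀ v ∈ S, ∀ w ∈ S, c v = c w → p v = p w → v = w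
  down : ∀ v ∈ S, ∀ j, j < p v → ∃ u ∈ S, c u = c v ∧ p u = j
  adj : ∀ v ∈ S, ∀ w ∈ S, (G.Adj v w ↔ c v = c w ∧ (p w = p v + 1 ∨ p v = p w + 1 ∨
    (L w ∧ p v = 0 ∧ p w ≠ 0) ∨ (L v ∧ p w = 0 ∧ p v ≠ 0)))
  last : ∀ v ∈ S, ∀ w ∈ S, L v → c w = c v → p w ≤ p v

/-- `f` is a path with `n` vertices in `S` -/
structure Pth {V : Type} (G : SimpleGraph V) (S : Finset V) (n : ℕ) (f : ℕ → V) : Prop where
  mem : ∀ i < n, f i ∈ S
  inj : ∀ i < n, ∀ j < n, f i = f j → i = j
  adj : ∀ i, i + 1 < n → G.Adj (f i) (f (i + 1))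

theorem exists_max_path {V : Type} (G : SimpleGraph V) (S : Finset V) (hS : S.Nonempty) :
    ∃ n f, 1 ≤ n ∧ Pth G S n f ∧ ∀ m g, Pth G S m g → m ≤ n := by
  set A : Set ℕ := {n | ∃ f, Pth G S n f} with hA
  obtain ⟨v, hv⟩ := hS
  have h1 : 1 ∈ A := by
    refine ⟨fun _ => v, ⟨fun _ _ => hv, ?_, ?_⟩⟩
    · intro i hi j hj _
      omega
    · intro i hi
      omega
  have hb : BddAbove A := by
    refine ⟨S.card, ?_⟩
    rintro n ⟨f, hf⟩
    have h := card_le_card_of_injOn (s := range n) (t := S) f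
      (fun i hi => hf.mem i (mem_range.1 hi))
      (fun i hi j hj h => hf.inj i (mem_range.1 hi) j (mem_range.1 hj) h)
    rwa [card_range] at h
  obtain ⟨f, hf⟩ := Nat.sSup_mem ⟨1, h1⟩ hb
  exact ⟨sSup A, f, le_csSup hb h1, hf, fun m g hg => le_csSup hb ⟨g, hg⟩⟩

theorem two_nbrs {V : Type} [Fintype V] (G : SimpleGraph V) (v a b w : V) (hd : dg G v ≤ 2)
    (hab : a ≠ b) (ha : G.Adj v a) (hb : G.Adj v b) (hw : G.Adj v w) : w = a ∨ w = b := by
  by_contra hcon
  push Not at hcon
  have h1 : ({a, b, w} : Finset V).card = 3 :=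
    card_eq_three.2 ⟨a, b, w, hab, hcon.1.symm, hcon.2.symm, rfl⟩
  have h2 : ({a, b, w} : Finset V) ⊆ univ.filter (fun x => G.Adj v x) := by
    intro x hx
    simp only [mem_insert, mem_singleton] at hx
    simp only [mem_filter, mem_univ, true_and]
    rcases hx with rfl | rfl | rfl
    · exact ha
    · exact hb
    · exact hw
  have h3 := card_le_card h2
  unfold dg at hd
  omega

theorem path_nbrs {V : Type} [Fintype V] (G : SimpleGraph V) (hd : ∀ v, dg G v ≤ 2)
    (S : Finset V) (hcl : ∀ v ∈ S, ∀ w, G.Adj v w → w ∈ S) (n : ℕ) (f : ℕ → V) (hn : 1 ≤ n)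
    (hf : Pth G S n f) (hmax : ∀ m g, Pth G S m g → m ≤ n) :
    (∀ i < n, ∀ w, G.Adj (f i) w → ∃ j < n, w = f j) ∧
    (∀ i < n, ∀ j < n, (G.Adj (f i) (f j) ↔ (j = i + 1 ∨ i = j + 1 ∨
      ((G.Adj (f 0) (f (n - 1)) ∧ j = n - 1) ∧ i = 0 ∧ j ≠ 0) ∨
      ((G.Adj (f 0) (f (n - 1)) ∧ i = n - 1) ∧ j = 0 ∧ i ≠ 0)))) := by
  have hlast : ∀ w, G.Adj (f (n - 1)) w → ∃ j < n, w = f j := by
    intro w hw
    by_contra hcon
    push Not at hcon
    have : Pth G S (n + 1) (fun i => if i = n then w else f i) := by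
      refine ⟨?_, ?_, ?_⟩
      · intro i hi
        by_cases h : i = n
        · simp only [h, if_true]
          exact hcl _ (hf.mem (n - 1) (by omega)) w hw
        · simp only [h, if_false]
          exact hf.mem i (by omega)
      · intro i hi j hj h
        by_cases h1 : i = n
        · by_cases h2 : j = n
          · omega
          · simp only [h1, h2, if_true, if_false] at h
            exact absurd h (hcon j (by omega))
        · by_cases h2 : j = n
          · simp only [h1, h2, if_true, if_false] at h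
            exact absurd h.symm (hcon i (by omega))
          · simp only [h1, h2, if_false] at h
            exact hf.inj i (by omega) j (by omega) h
      · intro i hi
        have h1 : i ≠ n := by omega
        by_cases h2 : i + 1 = n
        · simp only [h1, h2, if_true, if_false]
          have h3 : i = n - 1 := by omega
          rw [h3]
          exact hw
        · simp only [h1, h2, if_false]
          exact hf.adj i (by omega)
    have := hmax _ _ this
    omega
  have hfirst : ∀ w, G.Adj (f 0) w → ∃ j < n, w = f j := by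
    intro w hw
    by_contra hcon
    push Not at hcon
    have : Pth G S (n + 1) (fun i => if i = 0 then w else f (i - 1)) := by
      refine ⟨?_, ?_, ?_⟩
      · intro i hi
        by_cases h : i = 0
        · simp only [h, if_true]
          exact hcl _ (hf.mem 0 (by omega)) w hw
        · simp only [h, if_false]
          exact hf.mem (i - 1) (by omega)
      · intro i hi j hj h
        by_cases h1 : i = 0
        · by_cases h2 : j = 0
          · omega
          · simp only [h1, h2, if_true, if_false] at h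
            exact absurd h (hcon (j - 1) (by omega))
        · by_cases h2 : j = 0
          · simp only [h1, h2, if_true, if_false] at h
            exact absurd h.symm (hcon (i - 1) (by omega))
          · simp only [h1, h2, if_false] at h
            have := hf.inj (i - 1) (by omega) (j - 1) (by omega) h
            omega
      · intro i hi
        have h1 : i + 1 ≠ 0 := by omega
        by_cases h2 : i = 0
        · subst h2
          simp only [h1, if_true, if_false]
          exact hw.symm
        · simp only [h1, h2, if_false]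
          have h3 := hf.adj (i - 1) (by omega)
          have h4 : i - 1 + 1 = i + 1 - 1 := by omega
          rw [h4] at h3
          exact h3
    have := hmax _ _ this
    omega
  have hint : ∀ i, 0 < i → i + 1 < n → ∀ w, G.Adj (f i) w → w = f (i - 1) ∨ w = f (i + 1) := by
    intro i hi hi' w hw
    refine two_nbrs G (f i) (f (i - 1)) (f (i + 1)) w (hd _) ?_ ?_ ?_ hw
    · intro h
      have := hf.inj (i - 1) (by omega) (i + 1) (by omega) h
      omega
    · have h := hf.adj (i - 1) (by omega)
      have h4 : i - 1 + 1 = i := by omega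
      rw [h4] at h
      exact h.symm
    · exact hf.adj i hi'
  constructor
  · intro i hi w hw
    by_cases h0 : i = 0
    · subst h0
      exact hfirst w hw
    · by_cases h1 : i = n - 1
      · subst h1
        exact hlast w hw
      · rcases hint i (by omega) (by omega) w hw with h | h
        · exact ⟨i - 1, by omega, h⟩
        · exact ⟨i + 1, by omega, h⟩
  · have hint' : ∀ i j, 0 < i → i + 1 < n → j < n → G.Adj (f i) (f j) →
        (j = i + 1 ∨ i = j + 1) := by
      intro i j h0 h1 hj h
      rcases hint i h0 h1 _ h with h | h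
      · have := hf.inj j hj (i - 1) (by omega) h
        omega
      · have := hf.inj j hj (i + 1) (by omega) h
        omega
    intro i hi j hj
    constructor
    · intro h
      by_cases hi' : 0 < i ∧ i + 1 < n
      · rcases hint' i j hi'.1 hi'.2 hj h with h | h
        · exact Or.inl h
        · exact Or.inr (Or.inl h)
      · by_cases hj' : 0 < j ∧ j + 1 < n
        · rcases hint' j i hj'.1 hj'.2 hi h.symm with h | h
          · exact Or.inr (Or.inl h)
          · exact Or.inl h
        · have hij : i ≠ j := by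
            rintro rfl
            exact h.ne rfl
          have hi2 : i = 0 ∨ i = n - 1 := by omega
          have hj2 : j = 0 ∨ j = n - 1 := by omega
          rcases hi2 with hi2 | hi2
          · rcases hj2 with hj2 | hj2
            · omega
            · subst hi2 hj2
              exact Or.inr (Or.inr (Or.inl ⟨⟨h, rfl⟩, rfl, hij.symm⟩))
          · rcases hj2 with hj2 | hj2
            · subst hi2 hj2
              exact Or.inr (Or.inr (Or.inr ⟨⟨h.symm, rfl⟩, rfl, hij⟩))
            · omega
    · rintro (h | h | ⟨⟨h, h1⟩, h2, -⟩ | ⟨⟨h, h1⟩, h2, -⟩)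
      · subst h
        exact hf.adj i hj
      · subst h
        exact (hf.adj j hi).symm
      · subst h2
        rw [h1]
        exact h
      · subst h2
        rw [h1]
        exact h.symm

theorem exists_stk {V : Type} [Fintype V] (G : SimpleGraph V) (hd : ∀ v, dg G v ≤ 2) :
    ∀ (k : ℕ) (S : Finset V), S.card = k → (∀ v ∈ S, ∀ w, G.Adj v w → w ∈ S) →
      ∃ c p L, Stk G S c p L := by
  intro k
  induction k using Nat.strong_induction_on with
  | _ k ih =>
    intro S hSk hcl
    rcases S.eq_empty_or_nonempty with rfl | hS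
    · refine ⟨fun _ => 0, fun _ => 0, fun _ => True, ⟨?_, ?_, ?_, ?_⟩⟩ <;>
      · intro v hv
        exact absurd hv (notMem_empty v)
    · obtain ⟨n, f, hn, hf, hmax⟩ := exists_max_path G S hS
      obtain ⟨hA, hB⟩ := path_nbrs G hd S hcl n f hn hf hmax
      set T : Finset V := image f (range n) with hT
      have memT : ∀ v, v ∈ T ↔ ∃ i < n, f i = v := by
        intro v
        simp [hT]
      have hTS : T ⊆ S := by
        intro v hv
        obtain ⟨i, hi, rfl⟩ := (memT v).1 hv
        exact hf.mem i hi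
      have hTne : T.Nonempty := ⟨f 0, (memT _).2 ⟨0, by omega, rfl⟩⟩
      have hTcl : ∀ v ∈ T, ∀ w, G.Adj v w → w ∈ T := by
        intro v hv w hw
        obtain ⟨i, hi, rfl⟩ := (memT v).1 hv
        obtain ⟨j, hj, rfl⟩ := hA i hi w hw
        exact (memT _).2 ⟨j, hj, rfl⟩
      have hcl' : ∀ v ∈ S \ T, ∀ w, G.Adj v w → w ∈ S \ T := by
        intro v hv w hw
        rw [mem_sdiff] at hv ⊢
        exact ⟨hcl v hv.1 w hw, fun h => hv.2 (hTcl w h v hw.symm)⟩
      have hlt : (S \ T).card < k := by
        rw [← hSk]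
        apply card_lt_card
        refine ⟨sdiff_subset, fun h => ?_⟩
        obtain ⟨x, hx⟩ := hTne
        exact (mem_sdiff.1 (h (hTS hx))).2 hx
      obtain ⟨c, p, L, hst⟩ := ih _ hlt (S \ T) rfl hcl'
      have hg : ∀ v, ∃ i, v ∈ T → i < n ∧ f i = v := by
        intro v
        by_cases hv : v ∈ T
        · obtain ⟨i, hi⟩ := (memT v).1 hv
          exact ⟨i, fun _ => hi⟩
        · exact ⟨0, fun h => absurd h hv⟩
      choose g hg using hg
      have hgf : ∀ i < n, g (f i) = i := by
        intro i hi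
        have h := hg (f i) ((memT _).2 ⟨i, hi, rfl⟩)
        exact hf.inj _ h.1 i hi h.2
      refine ⟨fun v => if v ∈ T then 0 else c v + 1, fun v => if v ∈ T then g v else p v,
        fun v => if v ∈ T then (G.Adj (f 0) (f (n - 1)) ∧ g v = n - 1) else L v, ⟨?_, ?_, ?_, ?_⟩⟩
      · intro v hv w hw h1 h2
        by_cases hvT : v ∈ T
        · by_cases hwT : w ∈ T
          · simp only [hvT, hwT, if_true] at h2
            rw [← (hg v hvT).2, ← (hg w hwT).2, h2]
          · simp only [hvT, hwT, if_true, if_false] at h1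
            omega
        · by_cases hwT : w ∈ T
          · simp only [hvT, hwT, if_true, if_false] at h1
            omega
          · simp only [hvT, hwT, if_false] at h1 h2
            exact hst.inj v (mem_sdiff.2 ⟨hv, hvT⟩) w (mem_sdiff.2 ⟨hw, hwT⟩) (by omega) h2
      · intro v hv j hj
        by_cases hvT : v ∈ T
        · simp only [hvT, if_true] at hj ⊢
          have h1 := (hg v hvT).1
          have h2 : f j ∈ T := (memT _).2 ⟨j, by omega, rfl⟩
          refine ⟨f j, hTS h2, ?_, ?_⟩
          · simp only [h2, if_true]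
          · simp only [h2, if_true]
            exact hgf j (by omega)
        · simp only [hvT, if_false] at hj ⊢
          obtain ⟨u, hu, h1, h2⟩ := hst.down v (mem_sdiff.2 ⟨hv, hvT⟩) j hj
          rw [mem_sdiff] at hu
          refine ⟨u, hu.1, ?_, ?_⟩
          · simp only [hu.2, if_false]
            rw [h1]
          · simp only [hu.2, if_false]
            exact h2
      · intro v hv w hw
        by_cases hvT : v ∈ T
        · by_cases hwT : w ∈ T
          · simp only [hvT, hwT, if_true, true_and]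
            have h := hB (g v) (hg v hvT).1 (g w) (hg w hwT).1
            rw [(hg v hvT).2, (hg w hwT).2] at h
            exact h
          · simp only [hvT, hwT, if_true, if_false]
            constructor
            · intro h
              exact absurd (hTcl v hvT w h) hwT
            · rintro ⟨h, -⟩
              omega
        · by_cases hwT : w ∈ T
          · simp only [hvT, hwT, if_true, if_false]
            constructor
            · intro h
              exact absurd (hTcl w hwT v h.symm) hvT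
            · rintro ⟨h, -⟩
              omega
          · simp only [hvT, hwT, if_false]
            rw [hst.adj v (mem_sdiff.2 ⟨hv, hvT⟩) w (mem_sdiff.2 ⟨hw, hwT⟩)]
            constructor
            · rintro ⟨h, h'⟩
              exact ⟨by omega, h'⟩
            · rintro ⟨h, h'⟩
              exact ⟨by omega, h'⟩
      · intro v hv w hw hL hc
        by_cases hvT : v ∈ T
        · by_cases hwT : w ∈ T
          · simp only [hvT, hwT, if_true] at hL ⊢
            have := (hg w hwT).1
            omega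
          · simp only [hvT, hwT, if_true, if_false] at hc
            omega
        · by_cases hwT : w ∈ T
          · simp only [hvT, hwT, if_true, if_false] at hc
            omega
          · simp only [hvT, hwT, if_false] at hL hc ⊢
            exact hst.last v (mem_sdiff.2 ⟨hv, hvT⟩) w (mem_sdiff.2 ⟨hw, hwT⟩) hL (by omega)

section geometry

variable {V : Type} (c p : V → ℕ) (L : V → Prop)

/-- twice the abscissa of the left end of the bar of `v` -/
noncomputable def XX (v : V) : ℤ := 6 * (c v : ℤ) + (if p v = 0 ∨ L v then 0 else 1)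

/-- left end of the bar of `v` -/
noncomputable def pt (v : V) : ℝ × ℝ := (((XX c p L v : ℤ) : ℝ) / 2, ((p v : ℤ) : ℝ))

theorem XX_bd (v : V) : 6 * (c v : ℤ) ≤ XX c p L v ∧ XX c p L v ≤ 6 * (c v : ℤ) + 1 := by
  unfold XX
  split_ifs <;> omega

theorem mem_seg_pt (v : V) (x y : ℝ) :
    (x, y) ∈ seg (pt c p L v) ↔ ((XX c p L v : ℤ) : ℝ) ≤ 2 * x ∧
      2 * x ≤ ((XX c p L v + 2 : ℤ) : ℝ) ∧ y = ((p v : ℤ) : ℝ) := by
  unfold seg pt
  rw [Set.mem_prod, Set.mem_Icc, Set.mem_singleton_iff]
  push_cast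
  constructor
  · rintro ⟨⟨h1, h2⟩, h3⟩
    exact ⟨by linarith, by linarith, h3⟩
  · rintro ⟨h1, h2, h3⟩
    exact ⟨⟨by linarith, by linarith⟩, h3⟩

theorem Sees.symm' {B : Set (ℝ × ℝ)} {b c : ℝ × ℝ} (h : Sees B b c) : Sees B c b := by
  obtain ⟨p, q, h1, h2, h3, h4⟩ := h
  refine ⟨p, q, h1, h3, h2, ?_⟩
  intro d hd hdb hdc
  rw [Set.uIcc_comm]
  exact h4 d hd hdc hdb

/-- the abscissas of the points common to two bars force them into the same component -/
theorem same_c {v w : V} {x : ℝ} (h1 : ((XX c p L v : ℤ) : ℝ) ≤ 2 * x)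
    (h2 : 2 * x ≤ ((XX c p L v + 2 : ℤ) : ℝ)) (h3 : ((XX c p L w : ℤ) : ℝ) ≤ 2 * x)
    (h4 : 2 * x ≤ ((XX c p L w + 2 : ℤ) : ℝ)) : c v = c w := by
  have e1 : XX c p L v ≤ XX c p L w + 2 := by exact_mod_cast h1.trans h4
  have e2 : XX c p L w ≤ XX c p L v + 2 := by exact_mod_cast h3.trans h2
  have e3 := XX_bd c p L v
  have e4 := XX_bd c p L w
  omega

variable {c p L}
variable {G : SimpleGraph V} [Fintype V]

theorem pt_disj (h : Stk G univ c p L) {v w : V} (hvw : v ≠ w) :
    Disjoint (seg (pt c p L v)) (seg (pt c p L w)) := by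
  rw [Set.disjoint_left]
  rintro ⟨x, y⟩ h1 h2
  rw [mem_seg_pt] at h1 h2
  have hp : (p v : ℤ) = p w := by exact_mod_cast h1.2.2.symm.trans h2.2.2
  have hc := same_c c p L h1.1 h1.2.1 h2.1 h2.2.1
  exact hvw (h.inj v (mem_univ v) w (mem_univ w) hc (by exact_mod_cast hp))

theorem pt_inj (h : Stk G univ c p L) {v w : V} (hvw : pt c p L v = pt c p L w) : v = w := by
  by_contra hne
  have h1 := pt_disj h hne
  rw [hvw] at h1
  have h2 : pt c p L w ∈ seg (pt c p L w) := by
    unfold seg
    exact ⟨⟨le_rfl, by linarith⟩, rfl⟩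
  exact Set.disjoint_left.1 h1 h2 h2

theorem sees_up (h : Stk G univ c p L) {v w : V} (hc : c v = c w) (hp : p w = p v + 1) :
    Sees {x | ∃ u, x = pt c p L u} (pt c p L v) (pt c p L w) := by
  have e3 := XX_bd c p L v
  have e4 := XX_bd c p L w
  refine ⟨((6 * (c v : ℤ) + 1 : ℤ) : ℝ) / 2, ((6 * (c v : ℤ) + 2 : ℤ) : ℝ) / 2, ?_, ?_, ?_, ?_⟩
  · push_cast; linarith
  · rintro ⟨x, y⟩ ⟨⟨hx1, hx2⟩, hy⟩
    rw [mem_seg_pt]
    have f1 : ((XX c p L v : ℤ) : ℝ) ≤ ((6 * (c v : ℤ) + 1 : ℤ) : ℝ) := by exact_mod_cast e3.2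
    have f2 : ((6 * (c v : ℤ) + 2 : ℤ) : ℝ) ≤ ((XX c p L v + 2 : ℤ) : ℝ) := by
      exact_mod_cast (by omega : 6 * (c v : ℤ) + 2 ≤ XX c p L v + 2)
    simp only at hx1 hx2
    exact ⟨by linarith, by linarith, hy⟩
  · rintro ⟨x, y⟩ ⟨⟨hx1, hx2⟩, hy⟩
    rw [mem_seg_pt]
    have f1 : ((XX c p L w : ℤ) : ℝ) ≤ ((6 * (c v : ℤ) + 1 : ℤ) : ℝ) := by
      exact_mod_cast (by omega : XX c p L w ≤ 6 * (c v : ℤ) + 1)
    have f2 : ((6 * (c v : ℤ) + 2 : ℤ) : ℝ) ≤ ((XX c p L w + 2 : ℤ) : ℝ) := by
      exact_mod_cast (by omega : 6 * (c v : ℤ) + 2 ≤ XX c p L w + 2)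
    simp only at hx1 hx2
    exact ⟨by linarith, by linarith, hy⟩
  · rintro d ⟨u, rfl⟩ hd1 hd2
    rw [Set.disjoint_left]
    rintro ⟨x, y⟩ h1 h2
    rw [mem_seg_pt] at h1
    obtain ⟨⟨h3, h4⟩, h5⟩ := h2
    obtain ⟨h6, h7, h8⟩ := h1
    simp only at h3 h4
    have g1 : XX c p L u ≤ 6 * (c v : ℤ) + 2 := by
      have : ((XX c p L u : ℤ) : ℝ) ≤ ((6 * (c v : ℤ) + 2 : ℤ) : ℝ) := by linarith
      exact_mod_cast this
    have g2 : 6 * (c v : ℤ) + 1 ≤ XX c p L u + 2 := by
      have : ((6 * (c v : ℤ) + 1 : ℤ) : ℝ) ≤ ((XX c p L u + 2 : ℤ) : ℝ) := by linarith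
      exact_mod_cast this
    have e5 := XX_bd c p L u
    have hcu : c u = c v := by omega
    have hpu : p u = p v ∨ p u = p w := by
      rw [Set.mem_uIcc] at h5
      simp only [pt] at h5
      rw [h8] at h5
      rcases h5 with ⟨a, b⟩ | ⟨a, b⟩
      · have a' : (p v : ℤ) ≤ p u := by exact_mod_cast a
        have b' : (p u : ℤ) ≤ p w := by exact_mod_cast b
        omega
      · have a' : (p w : ℤ) ≤ p u := by exact_mod_cast a
        have b' : (p u : ℤ) ≤ p v := by exact_mod_cast b
        omega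
    rcases hpu with hpu | hpu
    · exact hd1 (congrArg _ (h.inj u (mem_univ u) v (mem_univ v) hcu hpu))
    · exact hd2 (congrArg _ (h.inj u (mem_univ u) w (mem_univ w) (hcu.trans hc) hpu))

theorem sees_cyc (h : Stk G univ c p L) {v w : V} (hc : c v = c w) (hL : L w) (hp : p v = 0) :
    Sees {x | ∃ u, x = pt c p L u} (pt c p L v) (pt c p L w) := by
  have e3 : XX c p L v = 6 * (c v : ℤ) := by
    unfold XX
    rw [if_pos (Or.inl hp), add_zero]
  have e4 : XX c p L w = 6 * (c v : ℤ) := by
    unfold XX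
    rw [if_pos (Or.inr hL), add_zero, hc]
  refine ⟨((6 * (c v : ℤ) : ℤ) : ℝ) / 2, ((6 * (c v : ℤ) : ℤ) : ℝ) / 2 + 1 / 4, ?_, ?_, ?_, ?_⟩
  · linarith
  · rintro ⟨x, y⟩ ⟨⟨hx1, hx2⟩, hy⟩
    rw [mem_seg_pt, e3]
    simp only at hx1 hx2
    refine ⟨by linarith, ?_, hy⟩
    push_cast at *
    linarith
  · rintro ⟨x, y⟩ ⟨⟨hx1, hx2⟩, hy⟩
    rw [mem_seg_pt, e4]
    simp only at hx1 hx2
    refine ⟨by linarith, ?_, hy⟩
    push_cast at *
    linarith
  · rintro d ⟨u, rfl⟩ hd1 hd2
    rw [Set.disjoint_left]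
    rintro ⟨x, y⟩ h1 h2
    rw [mem_seg_pt] at h1
    obtain ⟨⟨h3, h4⟩, h5⟩ := h2
    obtain ⟨h6, h7, h8⟩ := h1
    simp only at h3 h4
    have g1 : XX c p L u < 6 * (c v : ℤ) + 1 := by
      have : ((XX c p L u : ℤ) : ℝ) < ((6 * (c v : ℤ) + 1 : ℤ) : ℝ) := by
        push_cast at *
        linarith
      exact_mod_cast this
    have g2 : 6 * (c v : ℤ) ≤ XX c p L u + 2 := by
      have : ((6 * (c v : ℤ) : ℤ) : ℝ) ≤ ((XX c p L u + 2 : ℤ) : ℝ) := by linarith
      exact_mod_cast this
    have e5 := XX_bd c p L u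
    have hcu : c u = c v := by omega
    have hu : p u = 0 ∨ L u := by
      by_contra hcon
      unfold XX at g1
      rw [if_neg hcon] at g1
      omega
    rcases hu with hu | hu
    · exact hd1 (congrArg _ (h.inj u (mem_univ u) v (mem_univ v) hcu (hu.trans hp.symm)))
    · have k1 := h.last u (mem_univ u) w (mem_univ w) hu (hc.symm.trans hcu.symm)
      have k2 := h.last w (mem_univ w) u (mem_univ u) hL (hcu.trans hc)
      exact hd2 (congrArg _ (h.inj u (mem_univ u) w (mem_univ w) (hcu.trans hc)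
        (le_antisymm k2 k1)))

theorem adj_of_sees (h : Stk G univ c p L) {v w : V} (hlt : p v < p w)
    (hs : Sees {x | ∃ u, x = pt c p L u} (pt c p L v) (pt c p L w)) : G.Adj v w := by
  obtain ⟨P, Q, hPQ, hv, hw, hB⟩ := hs
  have m1 : (P, ((p v : ℤ) : ℝ)) ∈ seg (pt c p L v) := hv ⟨⟨le_rfl, hPQ.le⟩, rfl⟩
  have m2 : (P, ((p w : ℤ) : ℝ)) ∈ seg (pt c p L w) := hw ⟨⟨le_rfl, hPQ.le⟩, rfl⟩
  rw [mem_seg_pt] at m1 m2
  have hc : c v = c w := same_c c p L m1.1 m1.2.1 m2.1 m2.2.1
  rw [h.adj v (mem_univ v) w (mem_univ w)]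
  refine ⟨hc, ?_⟩
  by_contra hcon
  push Not at hcon
  obtain ⟨hc1, hc2, hc3, hc4⟩ := hcon
  have key : ∃ u, p v < p u ∧ p u < p w ∧ (XX c p L u = XX c p L v ∨ XX c p L u = XX c p L w) := by
    by_cases hv0 : p v = 0
    · have hLw : ¬ L w := fun hL => by
        have := hc3 hL hv0
        omega
      obtain ⟨u, -, hu1, hu2⟩ := h.down w (mem_univ w) (p w - 1) (by omega)
      refine ⟨u, by omega, by omega, Or.inr ?_⟩
      have hLu : ¬ L u := by
        intro hL
        have := h.last u (mem_univ u) w (mem_univ w) hL hu1.symm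
        omega
      have hu0 : ¬ (p u = 0 ∨ L u) := by
        rintro (h | h)
        · omega
        · exact hLu h
      have hw0 : ¬ (p w = 0 ∨ L w) := by
        rintro (h | h)
        · omega
        · exact hLw h
      unfold XX
      rw [if_neg hu0, if_neg hw0, hu1]
    · have hLv : ¬ L v := by
        intro hL
        have := h.last v (mem_univ v) w (mem_univ w) hL hc.symm
        omega
      obtain ⟨u, -, hu1, hu2⟩ := h.down w (mem_univ w) (p v + 1) (by omega)
      refine ⟨u, by omega, by omega, Or.inl ?_⟩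
      have hLu : ¬ L u := by
        intro hL
        have := h.last u (mem_univ u) w (mem_univ w) hL hu1.symm
        omega
      have hu0 : ¬ (p u = 0 ∨ L u) := by
        rintro (h | h)
        · omega
        · exact hLu h
      have hw0 : ¬ (p v = 0 ∨ L v) := by
        rintro (h | h)
        · omega
        · exact hLv h
      unfold XX
      rw [if_neg hu0, if_neg hw0, hu1, hc]
  obtain ⟨u, hu1, hu2, hu3⟩ := key
  have hne1 : pt c p L u ≠ pt c p L v := by
    intro h'
    have := pt_inj h h'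
    subst this
    omega
  have hne2 : pt c p L u ≠ pt c p L w := by
    intro h'
    have := pt_inj h h'
    subst this
    omega
  have hd := hB (pt c p L u) ⟨u, rfl⟩ hne1 hne2
  have hm : (P, ((p u : ℤ) : ℝ)) ∈ seg (pt c p L u) := by
    rw [mem_seg_pt]
    rcases hu3 with h' | h'
    · rw [h']
      exact ⟨m1.1, m1.2.1, rfl⟩
    · rw [h']
      exact ⟨m2.1, m2.2.1, rfl⟩
  refine Set.disjoint_left.1 hd hm ⟨⟨le_rfl, hPQ.le⟩, ?_⟩
  rw [Set.mem_uIcc]
  left
  simp only [pt]
  constructor
  · exact_mod_cast hu1.le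
  · exact_mod_cast hu2.le

theorem stk_hasRep (h : Stk G univ c p L) : HasRep G 1 := by
  refine ⟨fun v => {pt c p L v}, ⟨fun v => by simp, ?_, ?_⟩⟩
  · intro v w b b' hb hb' hne
    rw [mem_singleton] at hb hb'
    subst hb hb'
    refine pt_disj h ?_
    rintro rfl
    exact hne rfl
  · intro v w hvw
    simp only [mem_singleton, exists_eq_left]
    constructor
    · intro hadj
      rw [h.adj v (mem_univ v) w (mem_univ w)] at hadj
      obtain ⟨hc, h1 | h1 | ⟨h1, h2, -⟩ | ⟨h1, h2, -⟩⟩ := hadj
      · exact sees_up h hc h1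
      · exact Sees.symm' (sees_up h hc.symm h1)
      · exact sees_cyc h hc h1 h2
      · exact Sees.symm' (sees_cyc h hc.symm h1 h2)
    · intro hs
      rcases lt_trichotomy (p v) (p w) with hlt | heq | hlt
      · exact adj_of_sees h hlt hs
      · exfalso
        obtain ⟨P, Q, hPQ, hv, hw, -⟩ := hs
        have m1 : (P, ((p v : ℤ) : ℝ)) ∈ seg (pt c p L v) := hv ⟨⟨le_rfl, hPQ.le⟩, rfl⟩
        have m2 : (P, ((p w : ℤ) : ℝ)) ∈ seg (pt c p L w) := hw ⟨⟨le_rfl, hPQ.le⟩, rfl⟩
        rw [mem_seg_pt] at m1 m2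
        have hc : c v = c w := same_c c p L m1.1 m1.2.1 m2.1 m2.2.1
        exact hvw (h.inj v (mem_univ v) w (mem_univ w) hc heq)
      · exact (adj_of_sees h hlt (Sees.symm' hs)).symm

end geometry

theorem hasRep_one {V : Type} [Fintype V] (G : SimpleGraph V) (hd : ∀ v, dg G v ≤ 2) :
    HasRep G 1 := by
  obtain ⟨c, p, L, h⟩ := exists_stk G hd _ univ rfl (fun _ _ w _ => mem_univ w)
  exact stk_hasRep h

end Pool.Agent.V7H32.UB.Stack
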